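import Mathlib

/-!
# A `K₄`-free graph on `ω₁ × ω₁` without large independent sets, under CH

`W` is a well-order of type `ω₁` (uncountable, all proper initial segments countable).  Under CH
there is a `K₄`-free graph on `W × W` in which no set meeting infinitely many columns, in increasing
order, in uncountable sets is independent.
-/

set_option autoImplicit false

namespace Pool.Agent.TH769.K4

open Set

section rec

universe u

/-- Recursion along a well-order. -/
theorem exists_rec {I : Type u} [LinearOrder I] [WellFoundedLT I] {X : Type*} [Inhabited X]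
    (Phi : I → (I → X) → X → Prop)
    (hloc : ∀ i (D D' : I → X) x, (∀ j, j < i → D j = D' j) → Phi i D x → Phi i D' x)
    (hex : ∀ i D, ∃ x, Phi i D x) : ∃ D : I → X, ∀ i, Phi i D (D i) := by
  classical
  let step : (i : I) → ((j : I) → j < i → X) → X := fun i D =>
    Classical.choose (hex i (fun j => if h : j < i then D j h else default))
  let D : I → X := WellFounded.fix (wellFounded_lt (α := I)) step
  refine ⟨D, fun i => ?_⟩
  have h1 : D i = step i (fun j _ => D j) := WellFounded.fix_eq _ _ _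
  have h2 : Phi i (fun j => if h : j < i then D j else default) (step i (fun j _ => D j)) :=
    Classical.choose_spec (hex i (fun j => if h : j < i then D j else default))
  rw [← h1] at h2
  refine hloc i _ _ _ ?_ h2
  intro j hj
  simp [hj]

/-- Dependent choice of a sequence, each term depending on all earlier ones. -/
theorem exists_seq {X : Type*} [Nonempty X] (Q : (k : ℕ) → (ℕ → X) → X → Prop)
    (hloc : ∀ k (z z' : ℕ → X) x, (∀ j, j < k → z j = z' j) → Q k z x → Q k z' x)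
    (hex : ∀ k z, (∀ j, j < k → Q j z (z j)) → ∃ x, Q k z x) : ∃ z : ℕ → X, ∀ k, Q k z (z k) := by
  classical
  have : Inhabited X := Classical.inhabited_of_nonempty ‹_›
  obtain ⟨z, hz⟩ := exists_rec (I := ℕ) (X := X)
    (fun k z x => (∀ j, j < k → Q j z (z j)) → Q k z x)
    (by
      intro k z z' x h h1 h2
      refine hloc k z z' x h (h1 fun j hj => ?_)
      rw [h j hj]
      exact hloc j z' z _ (fun i hi => (h i (hi.trans hj)).symm) (h2 j hj))
    (by
      intro k z
      by_cases h : ∀ j, j < k → Q j z (z j)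
      · obtain ⟨x, hx⟩ := hex k z h
        exact ⟨x, fun _ => hx⟩
      · exact ⟨default, fun h' => absurd h' h⟩)
  refine ⟨z, fun k => ?_⟩
  induction k using Nat.strong_induction_on with
  | _ k ih => exact hz k ih

end rec

variable {W : Type*} [LinearOrder W]

/-- A candidate: columns `c n` and infinitely many points `a n i` in each of them. -/
abbrev Cand (W : Type*) := (ℕ → W) × (ℕ → ℕ → W)

/-- validity of a candidate for the vertex `(α, ξ)` -/
def Valid (α ξ : W) (p : Cand W) : Prop :=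
  StrictMono p.1 ∧ (∀ n, Function.Injective (p.2 n)) ∧ p.1 0 = α ∧ ∀ n i, p.2 n i < ξ

/-- the neighbour relation: `D ξ α` is the set of earlier neighbours of `(α, ξ)` -/
def Dir (D : W → W → Set (W × W)) (y z : W × W) : Prop := z ∈ D y.2 y.1

/-- the properties of the set of earlier neighbours of a vertex -/
structure Ok (e : W → W → ℕ) (D : W → W → Set (W × W)) (ξ α : W) (N : Set (W × W)) : Prop where
  col : ∀ z ∈ N, α < z.1
  time : ∀ z ∈ N, z.2 < ξ
  one : ∀ z ∈ N, ∀ z' ∈ N, z.1 = z'.1 → z = z'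
  rule : ∀ z ∈ N, ∀ z' ∈ N, Dir D z z' → e z'.1 α < e z'.1 z.1
  tri : ∀ z ∈ N, ∀ z' ∈ N, ∀ z'' ∈ N, ¬ (Dir D z z' ∧ Dir D z z'' ∧ Dir D z' z'')

theorem Ok.congr {e : W → W → ℕ} {D D' : W → W → Set (W × W)} {ξ α : W} {N : Set (W × W)}
    (h : ∀ j, j < ξ → D j = D' j) (hN : Ok e D ξ α N) : Ok e D' ξ α N := by
  have key : ∀ z ∈ N, ∀ z', Dir D' z z' ↔ Dir D z z' := by
    intro z hz z'
    unfold Dir
    rw [h z.2 (hN.time z hz)]
  refine ⟨hN.col, hN.time, hN.one, ?_, ?_⟩
  · intro z hz z' hz' hd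
    exact hN.rule z hz z' hz' ((key z hz z').1 hd)
  · rintro z hz z' hz' z'' hz'' ⟨h1, h2, h3⟩
    exact hN.tri z hz z' hz' z'' hz'' ⟨(key z hz z').1 h1, (key z hz z'').1 h2, (key z' hz' z'').1 h3⟩

/-- one step: choosing the earlier neighbours of `(α, ξ)` -/
theorem step (e : W → W → ℕ) (he : ∀ γ, Set.InjOn (e γ) (Set.Iio γ))
    (D : W → W → Set (W × W)) (ξ α : W) (hD : ∀ η, η < ξ → ∀ β, Ok e D η β (D η β))
    (p : ℕ → Cand W) (hp : ∀ k, Valid α ξ (p k)) :
    ∃ N : Set (W × W), Ok e D ξ α N ∧ ∀ k, ∃ n i, ((p k).1 n, (p k).2 n i) ∈ N := by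
  classical
  have : Nonempty (W × W) := ⟨(α, ξ)⟩
  obtain ⟨z, hz⟩ := exists_seq (X := W × W)
    (fun k z x => (∃ n i, 0 < n ∧ x = ((p k).1 n, (p k).2 n i)) ∧
      (∀ j, j < k → x.1 ≠ (z j).1) ∧ (∀ j, j < k → ¬ Dir D (z j) x) ∧
      (∀ j, j < k → x.1 < (z j).1 → e (z j).1 α < e (z j).1 x.1) ∧
      (∀ i j, i < k → j < k → x.1 < (z j).1 → e (z j).1 (z i).1 ≤ e (z j).1 x.1))
    (by
      rintro k z z' x h ⟨h1, h2, h3, h4, h5⟩
      refine ⟨h1, fun j hj => ?_, fun j hj => ?_, fun j hj => ?_, fun i j hi hj => ?_⟩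
      · rw [← h j hj]; exact h2 j hj
      · rw [← h j hj]; exact h3 j hj
      · rw [← h j hj]; exact h4 j hj
      · rw [← h j hj, ← h i hi]; exact h5 i j hi hj)
    (by
      intro k z hprev
      obtain ⟨hc, ha, h0, ht⟩ := hp k
      -- the column index is chosen large
      have f1 : ∀ j, {n | (p k).1 n = (z j).1}.Finite := by
        intro j
        refine Set.Subsingleton.finite ?_
        intro n hn m hm
        exact hc.injective (hn.trans hm.symm)
      have f2 : ∀ (γ : W) (M : ℕ), {n | (p k).1 n < γ ∧ e γ ((p k).1 n) ≤ M}.Finite := by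
        intro γ M
        refine Set.Finite.of_finite_image (f := fun n => e γ ((p k).1 n)) ?_ ?_
        · refine (Set.finite_Iic M).subset ?_
          rintro _ ⟨n, hn, rfl⟩
          exact hn.2
        · intro n hn m hm hnm
          exact hc.injective (he γ hn.1 hm.1 hnm)
      have f3 : ({0} ∪ (⋃ j ∈ Finset.range k, {n | (p k).1 n = (z j).1}) ∪
          (⋃ j ∈ Finset.range k, {n | (p k).1 n < (z j).1 ∧ e (z j).1 ((p k).1 n) ≤ e (z j).1 α}) ∪
          (⋃ j ∈ Finset.range k, ⋃ i ∈ Finset.range k,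
            {n | (p k).1 n < (z j).1 ∧ e (z j).1 ((p k).1 n) ≤ e (z j).1 (z i).1})).Finite := by
        refine (((Set.finite_singleton 0).union ?_).union ?_).union ?_
        · exact Set.Finite.biUnion (Finset.finite_toSet _) (fun j _ => f1 j)
        · exact Set.Finite.biUnion (Finset.finite_toSet _) (fun j _ => f2 _ _)
        · exact Set.Finite.biUnion (Finset.finite_toSet _) (fun j _ =>
            Set.Finite.biUnion (Finset.finite_toSet _) (fun i _ => f2 _ _))
      obtain ⟨n, hn⟩ := f3.exists_notMem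
      simp only [Set.mem_union, Set.mem_singleton_iff, Set.mem_iUnion, Finset.mem_range,
        Set.mem_ofPred_eq, not_or, not_exists, not_and, not_le] at hn
      obtain ⟨⟨⟨hn0, hn1⟩, hn2⟩, hn3⟩ := hn
      -- the point in the column is chosen to avoid the earlier neighbours
      have f4 : ({i | ∃ j, j < k ∧ Dir D (z j) ((p k).1 n, (p k).2 n i)}).Finite := by
        have : {i | ∃ j, j < k ∧ Dir D (z j) ((p k).1 n, (p k).2 n i)} =
            ⋃ j ∈ Finset.range k, {i | Dir D (z j) ((p k).1 n, (p k).2 n i)} := by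
          ext i; simp
        rw [this]
        refine Set.Finite.biUnion (Finset.finite_toSet _) (fun j hj => ?_)
        refine Set.Subsingleton.finite ?_
        intro i hi i' hi'
        have hjk : j < k := by simpa using hj
        have hzj : (z j).2 < ξ := by
          obtain ⟨⟨n', i'', _, hx⟩, -⟩ := hprev j hjk
          rw [hx]
          exact (hp j).2.2.2 _ _
        have hok := hD (z j).2 hzj (z j).1
        have h6 := hok.one _ hi _ hi' rfl
        exact ha n (congrArg Prod.snd h6)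
      obtain ⟨i, hi⟩ := f4.exists_notMem
      simp only [Set.mem_ofPred_eq, not_exists, not_and] at hi
      refine ⟨((p k).1 n, (p k).2 n i), ⟨n, i, Nat.pos_of_ne_zero hn0, rfl⟩, hn1, hi, hn2, ?_⟩
      intro i' j hi' hj hlt
      exact (hn3 j hj i' hi' hlt).le)
  have hne : ∀ j k, j < k → (z k).1 ≠ (z j).1 := fun j k h => (hz k).2.1 j h
  have hord : ∀ j k, Dir D (z k) (z j) → j < k := by
    intro j k h
    rcases lt_trichotomy j k with h1 | h1 | h1
    · exact h1
    · exfalso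
      subst h1
      obtain ⟨⟨n', i'', _, hx⟩, -⟩ := hz j
      have hzj : (z j).2 < ξ := by rw [hx]; exact (hp j).2.2.2 _ _
      exact lt_irrefl _ ((hD (z j).2 hzj (z j).1).time _ h)
    · exact absurd h ((hz j).2.2.1 k h1)
  have htime : ∀ j, (z j).2 < ξ := by
    intro j
    obtain ⟨⟨n', i'', _, hx⟩, -⟩ := hz j
    rw [hx]; exact (hp j).2.2.2 _ _
  have hcol : ∀ j, α < (z j).1 := by
    intro j
    obtain ⟨⟨n', i'', hn', hx⟩, -⟩ := hz j
    rw [hx, ← (hp j).2.2.1]
    exact (hp j).1 hn'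
  refine ⟨Set.range z, ⟨?_, ?_, ?_, ?_, ?_⟩, ?_⟩
  · rintro _ ⟨j, rfl⟩; exact hcol j
  · rintro _ ⟨j, rfl⟩; exact htime j
  · rintro _ ⟨j, rfl⟩ _ ⟨k, rfl⟩ h
    rcases lt_trichotomy j k with h1 | h1 | h1
    · exact absurd h.symm (hne j k h1)
    · rw [h1]
    · exact absurd h (hne k j h1)
  · rintro _ ⟨k, rfl⟩ _ ⟨j, rfl⟩ h
    have hjk := hord j k h
    have hlt : (z k).1 < (z j).1 := (hD (z k).2 (htime k) (z k).1).col _ h
    exact (hz k).2.2.2.1 j hjk hlt
  · rintro _ ⟨a, rfl⟩ _ ⟨b, rfl⟩ _ ⟨c, rfl⟩ ⟨h1, h2, h3⟩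
    have hba := hord b a h1
    have hca := hord c a h2
    have hlt : (z a).1 < (z c).1 := (hD (z a).2 (htime a) (z a).1).col _ h2
    have h4 := (hz a).2.2.2.2 b c hba hca hlt
    have h5 := (hD (z a).2 (htime a) (z a).1).rule _ h1 _ h2 h3
    omega
  · intro k
    obtain ⟨⟨n, i, _, hx⟩, -⟩ := hz k
    exact ⟨n, i, ⟨k, hx⟩⟩

/-- The construction of the graph from an enumeration of all candidates. -/
theorem exists_graph [WellFoundedLT W] (hcount : ∀ a : W, (Set.Iic a).Countable)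
    (e : W → W → ℕ) (he : ∀ γ, Set.InjOn (e γ) (Set.Iio γ)) (E : W → Cand W) :
    ∃ D : W → W → Set (W × W), (∀ ξ α, Ok e D ξ α (D ξ α)) ∧
      ∀ ξ α κ, κ < ξ → Valid α ξ (E κ) → ∃ n i, ((E κ).1 n, (E κ).2 n i) ∈ D ξ α := by
  classical
  obtain ⟨D, hD⟩ := exists_rec (I := W) (X := W → Set (W × W))
    (fun ξ D x => (∀ η, η < ξ → ∀ β, Ok e D η β (D η β)) →
      ∀ α, Ok e D ξ α (x α) ∧ ∀ κ, κ < ξ → Valid α ξ (E κ) →
        ∃ n i, ((E κ).1 n, (E κ).2 n i) ∈ x α)
    (by
      intro ξ D D' x h h1 h2 α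
      have h3 : ∀ η, η < ξ → ∀ β, Ok e D η β (D η β) := by
        intro η hη β
        have := h2 η hη β
        rw [← h η hη] at this
        exact this.congr (fun j hj => (h j (hj.trans hη)).symm)
      obtain ⟨h4, h5⟩ := h1 h3 α
      exact ⟨h4.congr h, h5⟩)
    (by
      intro ξ D
      by_cases hinv : ∀ η, η < ξ → ∀ β, Ok e D η β (D η β)
      · have : ∀ α, ∃ N : Set (W × W), Ok e D ξ α N ∧ ∀ κ, κ < ξ → Valid α ξ (E κ) →
            ∃ n i, ((E κ).1 n, (E κ).2 n i) ∈ N := by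
          intro α
          by_cases hne : ∃ κ, κ < ξ ∧ Valid α ξ (E κ)
          · have hc : ({κ | κ < ξ ∧ Valid α ξ (E κ)} : Set W).Countable :=
              (hcount ξ).mono (fun κ hκ => le_of_lt hκ.1)
            obtain ⟨g, hg⟩ := hc.exists_eq_range hne
            have hg' : ∀ k, g k ∈ {κ | κ < ξ ∧ Valid α ξ (E κ)} := by
              intro k; rw [hg]; exact ⟨k, rfl⟩
            obtain ⟨N, hN1, hN2⟩ := step e he D ξ α hinv (fun k => E (g k)) (fun k => (hg' k).2)
            refine ⟨N, hN1, fun κ hκ hv => ?_⟩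
            have : κ ∈ Set.range g := by rw [← hg]; exact ⟨hκ, hv⟩
            obtain ⟨k, rfl⟩ := this
            exact hN2 k
          · push Not at hne
            refine ⟨∅, ⟨?_, ?_, ?_, ?_, ?_⟩, fun κ hκ hv => absurd hv (hne κ hκ)⟩
            all_goals intro z hz; exact absurd hz (Set.notMem_empty z)
        choose x hx using this
        exact ⟨x, fun _ => hx⟩
      · exact ⟨fun _ => ∅, fun h => absurd h hinv⟩)
  have hall : ∀ ξ α, Ok e D ξ α (D ξ α) := by
    intro ξ
    induction ξ using WellFoundedLT.induction with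
    | _ ξ ih =>
      intro α
      exact (hD ξ (fun η hη β => ih η hη β) α).1
  exact ⟨D, hall, fun ξ α => (hD ξ (fun η _ β => hall η β) α).2⟩

/-- adjacency -/
def Adj (D : W → W → Set (W × W)) (y z : W × W) : Prop := Dir D y z ∨ Dir D z y

theorem adj_symm {D : W → W → Set (W × W)} {y z : W × W} (h : Adj D y z) : Adj D z y := h.symm

/-- no triangle among the earlier neighbours of a vertex -/
theorem no_tri {e : W → W → ℕ} {D : W → W → Set (W × W)} (hD : ∀ ξ α, Ok e D ξ α (D ξ α))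
    {y p q r : W × W} (hp : Dir D y p) (hq : Dir D y q) (hr : Dir D y r)
    (h1 : Adj D p q) (h2 : Adj D q r) (h3 : Adj D p r) : False := by
  have key := (hD y.2 y.1).tri
  have dec : ∀ a b, Dir D a b → b.2 < a.2 := fun a b h => (hD a.2 a.1).time b h
  rcases h1 with h1 | h1 <;> rcases h2 with h2 | h2 <;> rcases h3 with h3 | h3
  · exact key p hp q hq r hr ⟨h1, h3, h2⟩
  · exact absurd ((dec _ _ h1).trans (dec _ _ h3)) (dec _ _ h2).asymm
  · exact key p hp r hr q hq ⟨h3, h1, h2⟩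
  · exact key r hr p hp q hq ⟨h3, h2, h1⟩
  · exact key q hq p hp r hr ⟨h1, h2, h3⟩
  · exact key q hq r hr p hp ⟨h2, h1, h3⟩
  · exact absurd ((dec _ _ h1).trans (dec _ _ h2)) (dec _ _ h3).asymm
  · exact key r hr q hq p hp ⟨h2, h3, h1⟩

theorem others : ∀ m : Fin 4, ∃ i j k : Fin 4, i ≠ m ∧ j ≠ m ∧ k ≠ m ∧ i ≠ j ∧ j ≠ k ∧ i ≠ k := by
  decide

/-- the graph is `K₄`-free -/
theorem no_K4 {e : W → W → ℕ} {D : W → W → Set (W × W)} (hD : ∀ ξ α, Ok e D ξ α (D ξ α))
    (g : Fin 4 → W × W) (hg : ∀ i j, i ≠ j → Adj D (g i) (g j)) : False := by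
  have dec : ∀ a b, Dir D a b → b.2 < a.2 := fun a b h => (hD a.2 a.1).time b h
  obtain ⟨m, -, hm⟩ := Finset.exists_max_image Finset.univ (fun i => (g i).2) ⟨0, Finset.mem_univ 0⟩
  have hdir : ∀ i, i ≠ m → Dir D (g m) (g i) := by
    intro i hi
    rcases hg i m hi with h | h
    · exact absurd (dec _ _ h) (not_lt.2 (hm i (Finset.mem_univ i)))
    · exact h
  obtain ⟨i, j, k, h1, h2, h3, h4, h5, h6⟩ := others m
  exact no_tri hD (hdir i h1) (hdir j h2) (hdir k h3) (hg i j h4) (hg j k h5) (hg i k h6)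

/-- no large independent set -/
theorem no_indep {D : W → W → Set (W × W)} (hcount : ∀ a : W, (Set.Iic a).Countable)
    {E : W → Cand W} (hE : Function.Surjective E)
    (hD : ∀ ξ α κ, κ < ξ → Valid α ξ (E κ) → ∃ n i, ((E κ).1 n, (E κ).2 n i) ∈ D ξ α)
    (V : Set (W × W)) (c : ℕ → W) (hc : StrictMono c)
    (hV : ∀ n, ¬ {b | (c n, b) ∈ V}.Countable) : ∃ y ∈ V, ∃ z ∈ V, Adj D y z := by
  classical
  have hinf : ∀ n, {b | (c n, b) ∈ V}.Infinite := fun n hf => hV n hf.countable
  let a : ℕ → ℕ → W := fun n i => (Set.Infinite.natEmbedding _ (hinf n) i).1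
  have ha : ∀ n, Function.Injective (a n) := by
    intro n i j hij
    exact (Set.Infinite.natEmbedding _ (hinf n)).injective (Subtype.ext hij)
  have haV : ∀ n i, (c n, a n i) ∈ V := fun n i => (Set.Infinite.natEmbedding _ (hinf n) i).2
  obtain ⟨κ, hκ⟩ := hE (c, a)
  -- a late point of the first column
  have hbad : ({κ} ∪ Set.range (fun p : ℕ × ℕ => a p.1 p.2) : Set W).Countable :=
    (Set.countable_singleton κ).union (Set.countable_range _)
  have hbig : (⋃ x ∈ ({κ} ∪ Set.range (fun p : ℕ × ℕ => a p.1 p.2) : Set W), Set.Iic x).Countable :=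
    hbad.biUnion (fun x _ => hcount x)
  have : ¬ ({b | (c 0, b) ∈ V} ⊆
      ⋃ x ∈ ({κ} ∪ Set.range (fun p : ℕ × ℕ => a p.1 p.2) : Set W), Set.Iic x) :=
    fun h => hV 0 (hbig.mono h)
  obtain ⟨ξ, hξ, hξ'⟩ := Set.not_subset.1 this
  simp only [Set.mem_iUnion, not_exists, Set.mem_Iic, not_le] at hξ'
  have h1 : κ < ξ := hξ' κ (Or.inl rfl)
  have h2 : ∀ n i, a n i < ξ := fun n i => hξ' (a n i) (Or.inr ⟨(n, i), rfl⟩)
  obtain ⟨n, i, hni⟩ := hD ξ (c 0) κ h1 (by
    rw [hκ]
    exact ⟨hc, ha, rfl, h2⟩)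
  rw [hκ] at hni
  exact ⟨(c 0, ξ), hξ, (c n, a n i), haV n i, Or.inl hni⟩

end Pool.Agent.TH769.K4
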