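import Mathlib
import Pool.Agent.Helper300.PartCore
import Pool.Agent.TH769.K4

/-!
# From `ω₁ × ω₁` to ordinals below `ω₁² · ω`
-/

set_option autoImplicit false

namespace Pool.Agent.TH769.K4Ord

open Filter Set Cardinal Pool.Agent.Helper300.Part Pool.Agent.TH769.K4

/-- The first uncountable ordinal. -/
noncomputable abbrev Om : Ordinal.{0} := (Cardinal.aleph 1).ord

/-- The ordinals below `ω₁`. -/
abbrev T : Type 1 := Set.Iio Om

theorem Om_ne : Om ≠ 0 := by
  intro h
  have := Cardinal.ord_eq_zero.1 h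
  exact (Cardinal.aleph_pos 1).ne' this

theorem Om_pos : 0 < Om := pos_iff_ne_zero.2 Om_ne

theorem OmOm_ne : Om * Om ≠ 0 := mul_ne_zero Om_ne Om_ne

theorem countable_Iio {o : Ordinal.{0}} (h : o < Om) : (Set.Iio o).Countable := by
  rw [← Cardinal.le_aleph0_iff_set_countable, Cardinal.mk_Iio_ordinal]
  have h1 : o.card < Cardinal.aleph 1 := Cardinal.lt_ord.1 h
  have h2 : o.card ≤ Cardinal.aleph0 := Cardinal.lt_aleph_one_iff.1 h1
  rw [← Cardinal.lift_aleph0.{1,0}]
  exact Cardinal.lift_le.2 h2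

theorem T_Iic (a : T) : (Set.Iic a).Countable := by
  have h1 : Order.succ (a : Ordinal.{0}) < Om :=
    (Cardinal.isSuccLimit_ord (Cardinal.aleph0_le_aleph 1)).succ_lt a.2
  refine ((countable_Iio h1).preimage (Subtype.val_injective)).mono ?_
  intro b hb
  have hb' : (b : Ordinal.{0}) ≤ (a : Ordinal.{0}) := hb
  exact Order.lt_succ_of_le hb'

theorem mk_T : #T = aleph 1 := by
  rw [Cardinal.mk_Iio_ordinal, Cardinal.card_ord, Cardinal.lift_aleph]
  simp

theorem T_unc : ¬ (Set.univ : Set T).Countable := by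
  intro h
  rw [← Cardinal.le_aleph0_iff_set_countable, Cardinal.mk_univ, mk_T] at h
  exact absurd h (not_le.2 Cardinal.aleph0_lt_aleph_one)

/-- The position of the point `(a, b)` of the `k`-th copy of `ω₁²`. -/
noncomputable def enc (k : Ordinal.{0}) (p : T × T) : Ordinal.{0} :=
  (Om * Om) * k + (Om * (p.1 : Ordinal.{0}) + (p.2 : Ordinal.{0}))

theorem in_lt (p : T × T) : Om * (p.1 : Ordinal.{0}) + (p.2 : Ordinal.{0}) < Om * Om := by
  calc Om * (p.1 : Ordinal.{0}) + (p.2 : Ordinal.{0}) < Om * (p.1 : Ordinal.{0}) + Om := by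
        exact (add_lt_add_iff_left _).2 p.2.2
    _ = Om * (Order.succ (p.1 : Ordinal.{0})) := by rw [Ordinal.mul_succ]
    _ ≤ Om * Om := by
        apply mul_le_mul_right
        exact Order.succ_le_of_lt p.1.2

theorem enc_lt0 {k l : Ordinal.{0}} (h : k < l) (p q : T × T) : enc k p < enc l q := by
  unfold enc
  calc (Om * Om) * k + (Om * (p.1 : Ordinal.{0}) + (p.2 : Ordinal.{0})) <
        (Om * Om) * k + Om * Om := (add_lt_add_iff_left _).2 (in_lt p)
    _ = (Om * Om) * (Order.succ k) := by rw [Ordinal.mul_succ]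
    _ ≤ (Om * Om) * l := by
        apply mul_le_mul_right
        exact Order.succ_le_of_lt h
    _ ≤ _ := le_self_add

theorem enc_lt1 (k : Ordinal.{0}) {x y : T × T} (h : x.1 < y.1) : enc k x < enc k y := by
  unfold enc
  refine (add_lt_add_iff_left _).2 ?_
  calc Om * (x.1 : Ordinal.{0}) + (x.2 : Ordinal.{0}) < Om * (x.1 : Ordinal.{0}) + Om := by
        exact (add_lt_add_iff_left _).2 x.2.2
    _ = Om * (Order.succ (x.1 : Ordinal.{0})) := by rw [Ordinal.mul_succ]
    _ ≤ Om * (y.1 : Ordinal.{0}) := by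
        apply mul_le_mul_right
        exact Order.succ_le_of_lt h
    _ ≤ _ := le_self_add

theorem enc_lt2 (k : Ordinal.{0}) {x y : T × T} (h1 : x.1 = y.1) (h : x.2 < y.2) :
    enc k x < enc k y := by
  unfold enc
  rw [h1]
  exact (add_lt_add_iff_left _).2 ((add_lt_add_iff_left _).2 h)

theorem enc_bound (n : ℕ) (x : T × T) : enc n x < Om * Om * Ordinal.omega0 := by
  have h0 : (0 : Ordinal.{0}) < Om := Om_pos
  have h1 := enc_lt0 (k := (n : Ordinal.{0})) (l := ((n + 1 : ℕ) : Ordinal.{0}))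
    (by exact_mod_cast Nat.lt_succ_self n) x (⟨0, h0⟩, ⟨0, h0⟩)
  refine h1.trans_le ?_
  have h2 : enc ((n + 1 : ℕ) : Ordinal.{0}) (⟨0, h0⟩, ⟨0, h0⟩) = Om * Om * ((n + 1 : ℕ) : Ordinal.{0}) := by
    simp [enc]
  rw [h2]
  apply mul_le_mul_right
  exact (Ordinal.natCast_lt_omega0 (n + 1)).le

/-- the copy of `ω₁²` in which an ordinal lies -/
noncomputable def copy (x : Ordinal.{0}) : Ordinal.{0} := x / (Om * Om)

theorem mod_div_lt (x : Ordinal.{0}) : x % (Om * Om) / Om < Om :=
  (Ordinal.lt_mul_iff_div_lt Om_ne).1 (Ordinal.mod_lt x OmOm_ne)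

/-- the point of `ω₁ × ω₁` coded by an ordinal -/
noncomputable def pt (x : Ordinal.{0}) : T × T :=
  (⟨x % (Om * Om) / Om, mod_div_lt x⟩, ⟨x % (Om * Om) % Om, Ordinal.mod_lt _ Om_ne⟩)

theorem enc_pt (x : Ordinal.{0}) : enc (copy x) (pt x) = x := by
  unfold enc copy pt
  simp only
  rw [Ordinal.div_add_mod, Ordinal.div_add_mod]

theorem lt_of_lt {x y : Ordinal.{0}} (h : x < y) (hc : copy x = copy y) :
    (pt x).1 < (pt y).1 ∨ ((pt x).1 = (pt y).1 ∧ (pt x).2 < (pt y).2) := by
  rcases lt_trichotomy (pt x).1 (pt y).1 with h1 | h1 | h1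
  · exact Or.inl h1
  · rcases lt_trichotomy (pt x).2 (pt y).2 with h2 | h2 | h2
    · exact Or.inr ⟨h1, h2⟩
    · exfalso
      have : x = y := by rw [← enc_pt x, ← enc_pt y, hc, Prod.ext h1 h2]
      exact h.ne this
    · exfalso
      have h3 := enc_lt2 (copy y) h1.symm h2
      rw [enc_pt y, ← hc, enc_pt x] at h3
      exact lt_asymm h h3
  · exfalso
    have h3 := enc_lt1 (copy y) h1
    rw [enc_pt y, ← hc, enc_pt x] at h3
    exact lt_asymm h h3

theorem copy_mono {x y : Ordinal.{0}} (h : x ≤ y) : copy x ≤ copy y := by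
  by_contra hc
  rw [not_le] at hc
  have h3 := enc_lt0 hc (pt y) (pt x)
  rw [enc_pt, enc_pt] at h3
  exact absurd h (not_le.2 h3)

theorem copy_lt {x k : Ordinal.{0}} (h : x < Om * Om * k) : copy x < k :=
  (Ordinal.lt_mul_iff_div_lt OmOm_ne).1 h

/-- The relation `α → (ω₁ · ω, 4)²`. -/
def Arrow (α : Ordinal.{0}) : Prop :=
  ∀ c : Ordinal.{0} → Ordinal.{0} → Prop,
    (∃ f : Ordinal.{0} → Ordinal.{0},
        StrictMonoOn f (Set.Iio ((Cardinal.aleph 1).ord * Ordinal.omega0)) ∧
        (∀ x, x < (Cardinal.aleph 1).ord * Ordinal.omega0 → f x < α) ∧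
        (∀ x y, x < y → y < (Cardinal.aleph 1).ord * Ordinal.omega0 → c (f x) (f y))) ∨
    (∃ g : Fin 4 → Ordinal.{0},
        StrictMono g ∧ (∀ i, g i < α) ∧ (∀ i j, i < j → ¬ c (g i) (g j)))

theorem Arrow.mono {α β : Ordinal.{0}} (h : α ≤ β) (hα : Arrow α) : Arrow β := by
  intro c
  rcases hα c with ⟨f, h1, h2, h3⟩ | ⟨g, h1, h2, h3⟩
  · exact Or.inl ⟨f, h1, fun x hx => (h2 x hx).trans_le h, h3⟩
  · exact Or.inr ⟨g, h1, fun i => (h2 i).trans_le h, h3⟩

/-! ### the negative direction -/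

theorem exists_e : ∃ e : T → T → ℕ, ∀ γ, Set.InjOn (e γ) (Set.Iio γ) := by
  have h : ∀ γ : T, ∃ e : T → ℕ, Set.InjOn e (Set.Iio γ) := by
    intro γ
    have hc : (Set.Iio γ).Countable := (T_Iic γ).mono Set.Iio_subset_Iic_self
    exact Set.countable_iff_exists_injOn.1 hc
  choose e he using h
  exact ⟨e, he⟩

theorem exists_E (hCH : (Cardinal.aleph 1 : Cardinal.{0}) = Cardinal.continuum.{0}) :
    ∃ E : T → Cand T, Function.Surjective E := by
  have hT : #T = continuum := by
    rw [mk_T]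
    have h := congrArg Cardinal.lift.{1} hCH
    rw [Cardinal.lift_continuum, Cardinal.lift_aleph] at h
    simpa using h
  have h1 : #(ℕ → T) = continuum := by
    rw [Cardinal.mk_arrow, hT]
    simp
  have h2 : #(ℕ → ℕ → T) = continuum := by
    rw [Cardinal.mk_arrow, h1]
    simp
  have h3 : #(Cand T) = #T := by
    rw [hT]
    show #((ℕ → T) × (ℕ → ℕ → T)) = continuum
    rw [Cardinal.mk_prod, h1, h2]
    simp
  obtain ⟨E⟩ := Cardinal.eq.1 h3
  exact ⟨E.symm, E.symm.surjective⟩

theorem negative (hCH : (Cardinal.aleph 1 : Cardinal.{0}) = Cardinal.continuum.{0})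
    (α : Ordinal.{0}) (hα : α < Om * Om * Ordinal.omega0) : ¬ Arrow α := by
  classical
  intro hA
  obtain ⟨e, he⟩ := exists_e
  obtain ⟨E, hE⟩ := exists_E hCH
  obtain ⟨D, hD1, hD2⟩ := exists_graph T_Iic e he E
  have hirr : ∀ y, ¬ Adj D y y := by
    intro y hy
    have : Dir D y y := hy.elim id id
    exact lt_irrefl _ ((hD1 y.2 y.1).time y this)
  rcases hA (fun x y => ¬ (copy x = copy y ∧ Adj D (pt x) (pt y))) with
    ⟨f, hf1, hf2, hf3⟩ | ⟨g, hg1, -, hg3⟩
  · -- the copy is eventually constant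
    obtain ⟨K, hK⟩ := Ordinal.lt_omega0.1 (copy_lt hα)
    have hOmω : ∀ n : ℕ, Om * (n : Ordinal.{0}) < Om * Ordinal.omega0 := fun n =>
      (mul_lt_mul_iff_right₀ Om_pos).2 (Ordinal.natCast_lt_omega0 n)
    have hcK : ∀ x, x < Om * Ordinal.omega0 → copy (f x) ≤ K := by
      intro x hx
      rw [← hK]
      exact copy_mono (hf2 x hx).le
    have hmono : ∀ x y, x ≤ y → y < Om * Ordinal.omega0 → f x ≤ f y := by
      intro x y hxy hy
      exact hf1.monotoneOn (hxy.trans_lt hy) hy hxy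
    let q : ℕ → Ordinal.{0} := fun n => copy (f (Om * (n : Ordinal.{0})))
    have hq : Monotone q := by
      intro n m hnm
      refine copy_mono (hmono _ _ ?_ (hOmω m))
      apply mul_le_mul_right
      exact_mod_cast hnm
    obtain ⟨n₀, hn₀⟩ : ∃ n₀, ∀ n, n₀ ≤ n → q n = q n₀ := by
      have hfin : ∀ n, ∃ m : ℕ, q n = m ∧ m ≤ K := by
        intro n
        have h1 : q n ≤ K := hcK _ (hOmω n)
        obtain ⟨m, hm⟩ := Ordinal.lt_omega0.1 (h1.trans_lt (Ordinal.natCast_lt_omega0 K))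
        refine ⟨m, hm, ?_⟩
        rw [hm] at h1
        exact_mod_cast h1
      choose r hr1 hr2 using hfin
      have hr : Monotone r := by
        intro n m hnm
        have := hq hnm
        rw [hr1, hr1] at this
        exact_mod_cast this
      obtain ⟨n₀, hn₀⟩ : ∃ n₀, ∀ n, r n ≤ r n₀ := by
        have hfin : (Set.range r).Finite :=
          (Set.finite_Iic K).subset (by rintro _ ⟨n, rfl⟩; exact hr2 n)
        obtain ⟨v, ⟨n₀, rfl⟩, hv⟩ := hfin.exists_maximal (Set.range_nonempty r)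
        refine ⟨n₀, fun n => ?_⟩
        by_contra hc
        rw [not_le] at hc
        exact absurd (hv ⟨n, rfl⟩ hc.le) (not_le.2 hc)
      refine ⟨n₀, fun n hn => ?_⟩
      rw [hr1, hr1, le_antisymm (hn₀ n) (hr hn)]
    have hsame : ∀ x, Om * (n₀ : Ordinal.{0}) ≤ x → x < Om * Ordinal.omega0 →
        copy (f x) = q n₀ := by
      intro x hx hxω
      have h1 : x / Om < Ordinal.omega0 := (Ordinal.lt_mul_iff_div_lt Om_ne).1 hxω
      obtain ⟨m, hm⟩ := Ordinal.lt_omega0.1 h1
      have h2 : x < Om * ((m + 1 : ℕ) : Ordinal.{0}) := by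
        rw [Ordinal.lt_mul_iff_div_lt Om_ne, hm]
        exact_mod_cast Nat.lt_succ_self m
      have h3 : copy (f x) ≤ q (m + 1) := copy_mono (hmono _ _ h2.le (hOmω _))
      have h4 : n₀ ≤ m + 1 := by
        have h5 := hx.trans_lt h2
        have h6 := (mul_lt_mul_iff_right₀ Om_pos).1 h5
        have h7 : n₀ < m + 1 := by exact_mod_cast h6
        exact h7.le
      rw [hn₀ _ h4] at h3
      exact le_antisymm h3 (copy_mono (hmono _ _ hx hxω))
    -- blocks
    let Bk : ℕ → Set Ordinal.{0} := fun n =>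
      Set.Ico (Om * ((n₀ + n : ℕ) : Ordinal.{0})) (Om * ((n₀ + n + 1 : ℕ) : Ordinal.{0}))
    have hBkω : ∀ n x, x ∈ Bk n → x < Om * Ordinal.omega0 := fun n x hx => hx.2.trans (hOmω _)
    have hBk0 : ∀ n x, x ∈ Bk n → Om * (n₀ : Ordinal.{0}) ≤ x := by
      intro n x hx
      refine le_trans ?_ hx.1
      apply mul_le_mul_right
      exact_mod_cast Nat.le_add_right n₀ n
    have hBkunc : ∀ n, ¬ (Bk n).Countable := by
      intro n hc
      apply T_unc
      have hinj : Function.Injective (fun t : T => Om * ((n₀ + n : ℕ) : Ordinal.{0}) + (t : Ordinal.{0})) := by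
        intro s t hst
        exact Subtype.ext (add_left_cancel hst)
      refine (hc.preimage hinj).mono ?_
      intro t _
      refine ⟨le_self_add, ?_⟩
      change Om * ((n₀ + n : ℕ) : Ordinal.{0}) + (t : Ordinal.{0}) < _
      have : Om * ((n₀ + n + 1 : ℕ) : Ordinal.{0}) = Om * ((n₀ + n : ℕ) : Ordinal.{0}) + Om := by
        push_cast
        rw [mul_add, mul_one]
      rw [this]
      exact (add_lt_add_iff_left _).2 t.2
    -- a column meeting the block in an uncountable set
    have hcol : ∀ n, ∃ a : T, ¬ {x | x ∈ Bk n ∧ (pt (f x)).1 = a}.Countable := by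
      intro n
      by_contra hc
      push Not at hc
      apply hBkunc n
      have hsub : Bk n ⊆ ⋃ a ∈ Set.Iic (pt (f (Om * ((n₀ + n + 1 : ℕ) : Ordinal.{0})))).1,
          {x | x ∈ Bk n ∧ (pt (f x)).1 = a} := by
        intro x hx
        refine Set.mem_iUnion₂.2 ⟨(pt (f x)).1, ?_, hx, rfl⟩
        have h1 : f x < f (Om * ((n₀ + n + 1 : ℕ) : Ordinal.{0})) :=
          hf1 (hBkω n x hx) (hOmω _) hx.2
        have h2 : copy (f x) = copy (f (Om * ((n₀ + n + 1 : ℕ) : Ordinal.{0}))) := by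
          rw [hsame x (hBk0 n x hx) (hBkω n x hx)]
          exact (hn₀ (n₀ + n + 1) (by omega)).symm
        rcases lt_of_lt h1 h2 with h3 | h3
        · exact h3.le
        · exact h3.1.le
      exact ((T_Iic _).biUnion (fun a _ => hc a)).mono hsub
    choose a ha using hcol
    have hfinj : ∀ n x y, x ∈ Bk n → y ∈ Bk n → f x = f y → x = y := by
      intro n x y hx hy hxy
      exact hf1.injOn (hBkω n x hx) (hBkω n y hy) hxy
    have hmonoa : StrictMono a := by
      refine strictMono_nat_of_lt_succ fun n => ?_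
      obtain ⟨y, hy⟩ : {x | x ∈ Bk (n + 1) ∧ (pt (f x)).1 = a (n + 1)}.Nonempty := by
        by_contra hemp
        rw [Set.not_nonempty_iff_eq_empty] at hemp
        apply ha (n + 1)
        rw [hemp]
        exact Set.countable_empty
      by_contra hcon
      rw [not_lt] at hcon
      apply ha n
      -- all the points come before `y` in the same column
      have hinj : Set.InjOn (fun x => (pt (f x)).2) {x | x ∈ Bk n ∧ (pt (f x)).1 = a n} := by
        intro x hx x' hx' hxx
        apply hfinj n x x' hx.1 hx'.1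
        rw [← enc_pt (f x), ← enc_pt (f x'), hsame x (hBk0 n x hx.1) (hBkω n x hx.1),
          hsame x' (hBk0 n x' hx'.1) (hBkω n x' hx'.1)]
        congr 1
        exact Prod.ext (hx.2.trans hx'.2.symm) hxx
      refine Set.MapsTo.countable_of_injOn (t := Set.Iic (pt (f y)).2) ?_ hinj (T_Iic _)
      intro x hx
      have h0 : x < y := by
        refine hx.1.2.trans_le ?_
        have := hy.1.1
        rwa [← add_assoc] at this
      have h1 : f x < f y := hf1 (hBkω n x hx.1) (hBkω _ y hy.1) h0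
      have h2 : copy (f x) = copy (f y) := by
        rw [hsame x (hBk0 n x hx.1) (hBkω n x hx.1), hsame y (hBk0 _ y hy.1) (hBkω _ y hy.1)]
      rcases lt_of_lt h1 h2 with h3 | h3
      · exfalso
        rw [hx.2, hy.2] at h3
        exact absurd h3 (not_lt.2 hcon)
      · exact h3.2.le
    obtain ⟨y, hy, z, hz, hyz⟩ := no_indep T_Iic hE hD2
      {p | ∃ x, Om * (n₀ : Ordinal.{0}) ≤ x ∧ x < Om * Ordinal.omega0 ∧ pt (f x) = p} a hmonoa (by
        intro n hc
        apply ha n
        have hinj : Set.InjOn (fun x => (pt (f x)).2) {x | x ∈ Bk n ∧ (pt (f x)).1 = a n} := by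
          intro x hx x' hx' hxx
          apply hfinj n x x' hx.1 hx'.1
          rw [← enc_pt (f x), ← enc_pt (f x'), hsame x (hBk0 n x hx.1) (hBkω n x hx.1),
            hsame x' (hBk0 n x' hx'.1) (hBkω n x' hx'.1)]
          congr 1
          exact Prod.ext (hx.2.trans hx'.2.symm) hxx
        refine Set.MapsTo.countable_of_injOn ?_ hinj hc
        intro x hx
        exact ⟨x, hBk0 n x hx.1, hBkω n x hx.1, Prod.ext hx.2 rfl⟩)
    obtain ⟨x, hx1, hx2, rfl⟩ := hy
    obtain ⟨x', hx1', hx2', rfl⟩ := hz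
    have hcc : copy (f x) = copy (f x') := by rw [hsame x hx1 hx2, hsame x' hx1' hx2']
    rcases lt_trichotomy x x' with h | h | h
    · exact hf3 x x' h hx2' ⟨hcc, hyz⟩
    · subst h
      exact hirr _ hyz
    · exact hf3 x' x h hx2 ⟨hcc.symm, adj_symm hyz⟩
  · have h1 : ∀ i j, i < j → Adj D (pt (g i)) (pt (g j)) := by
      intro i j hij
      have := hg3 i j hij
      rw [not_not] at this
      exact this.2
    refine no_K4 hD1 (fun i => pt (g i)) (fun i j hij => ?_)
    rcases lt_or_gt_of_ne hij with h | h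
    · exact h1 i j h
    · exact adj_symm (h1 j i h)

end Pool.Agent.TH769.K4Ord
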