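import Mathlib
import Pool.Agent.TH769.K4Ord

/-!
# `ω₁² · ω → (ω₁ · ω, 4)²` in ZFC
-/

set_option autoImplicit false

namespace Pool.Agent.TH769.K4Pos

open Filter Set Cardinal Pool.Agent.Helper300.Part Pool.Agent.TH769.K4 Pool.Agent.TH769.K4Ord

/-- the ideal of the sets having uncountably many uncountable columns -/
noncomputable def ell : Filter (T × T) := (cocountable : Filter T).curry cocountable

instance : (cocountable : Filter T).NeBot := by
  refine ⟨fun h => ?_⟩
  have h0 : (∅ : Set T) ∈ (cocountable : Filter T) := by rw [h]; exact Filter.mem_bot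
  rw [mem_cocountable, Set.compl_empty] at h0
  exact T_unc h0

instance : CountableInterFilter (cocountable : Filter T) := by
  refine ⟨fun S hS hS2 => ?_⟩
  rw [mem_cocountable, Set.compl_sInter]
  refine Set.Countable.sUnion (hS.image _) ?_
  rintro _ ⟨s, hs, rfl⟩
  exact mem_cocountable.1 (hS2 s hs)

instance : ell.NeBot := by
  refine ⟨fun h => ?_⟩
  have h0 : ∀ᶠ p in ell, False := by rw [h]; exact Filter.eventually_bot
  have h1 : ∀ᶠ a in (cocountable : Filter T), ∀ᶠ b in (cocountable : Filter T), False := h0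
  obtain ⟨a, ha⟩ := h1.exists
  exact ha.exists.choose_spec

instance : CountableInterFilter ell := CountableInterFilter.curry

theorem late (a : T) : ∀ᶠ x in ell, a < x.1 := by
  have hcop : ∀ a : T, ∀ᶠ b in (cocountable : Filter T), a < b := by
    intro a
    change {b | a < b} ∈ (cocountable : Filter T)
    rw [mem_cocountable]
    refine (T_Iic a).mono ?_
    intro b hb
    exact not_lt.1 (show ¬ (a < b) from hb)
  change ∀ᶠ x in (cocountable : Filter T), ∀ᶠ y in (cocountable : Filter T), a < x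
  exact (hcop a).mono fun x hx => Eventually.of_forall fun _ => hx

theorem block (W : Set (T × T)) (hW : ∃ᶠ y in ell, y ∈ W) : ∃ V ⊆ W, IsBlock Prod.fst V := by
  have h1 : ∃ᶠ x in (cocountable : Filter T), ∃ᶠ y in (cocountable : Filter T), (x, y) ∈ W :=
    (frequently_curry_iff _).1 hW
  obtain ⟨x, hx⟩ := h1.exists
  refine ⟨{p | p ∈ W ∧ p.1 = x}, fun p hp => hp.1, ?_, x, fun p hp => hp.2⟩
  intro hc
  apply hx
  change {y | ¬ ((x, y) ∈ W)} ∈ (cocountable : Filter T)
  rw [mem_cocountable]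
  refine (hc.preimage (f := fun y : T => (x, y)) (fun y y' h => (Prod.mk.inj h).2)).mono ?_
  intro y hy
  simp only [Set.mem_compl_iff, Set.mem_ofPred_eq, not_not] at hy
  exact ⟨hy, rfl⟩

/-- A positive set on which a symmetric relation has no triangles contains an increasing sequence
of blocks without any edges. -/
theorem core_on (W : Set (T × T)) (hW : ∃ᶠ y in ell, y ∈ W) (G : T × T → T × T → Prop)
    (hs : ∀ x y, G x y → G y x)
    (ht : ∀ x ∈ W, ∀ y ∈ W, ∀ z ∈ W, G x y → G y z → G x z → False) :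
    ∃ (a : ℕ → T) (V : ℕ → Set (T × T)), StrictMono a ∧ (∀ n, ¬ (V n).Countable) ∧
      (∀ n, ∀ y ∈ V n, y.1 = a n) ∧ ∀ n m, ∀ x ∈ V n, ∀ y ∈ V m, ¬ G x y := by
  classical
  let ℓ' : Filter W := comap Subtype.val ell
  have hne : ℓ'.NeBot := by
    rw [comap_neBot_iff_frequently]
    exact hW.mono fun y hy => ⟨⟨y, hy⟩, rfl⟩
  have hmap : ∀ {p : W → Prop}, (∃ᶠ y in ℓ', p y) → ∃ᶠ y in ell, ∃ h : y ∈ W, p ⟨y, h⟩ := by
    intro p hp
    have h1 : ∃ᶠ y in map Subtype.val ℓ', ∃ h : y ∈ W, p ⟨y, h⟩ := by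
      rw [frequently_map]
      exact hp.mono (fun y hy => ⟨y.2, hy⟩)
    exact h1.filter_mono map_comap_le
  obtain ⟨a, V, ha, hV, hcol, hE⟩ := core (P := W) (L := T) (ι := Unit)
    (fun x => x.1.1) (fun _ x y => G x.1 y.1) ℓ'
    (by
      intro a
      exact (late a).comap _)
    (by
      intro W' hW'
      obtain ⟨V, hV, hVc, x, hx⟩ := block _ (hmap (p := fun y => y ∈ W') hW')
      refine ⟨Subtype.val ⁻¹' V, ?_, ?_, x, fun y hy => hx _ hy⟩
      · intro y hy
        obtain ⟨_, h⟩ := hV hy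
        exact h
      · intro hc
        apply hVc
        refine (hc.image Subtype.val).mono ?_
        intro y hy
        obtain ⟨h, _⟩ := hV hy
        exact ⟨⟨y, h⟩, hy, rfl⟩)
    (fun _ x y h => hs _ _ h)
    (fun _ x y z h1 h2 h3 => ht _ x.2 _ y.2 _ z.2 h1 h2 h3) T_unc T_Iic
  refine ⟨a, fun n => Subtype.val '' V n, ha, ?_, ?_, ?_⟩
  · intro n hc
    apply hV n
    have := hc.preimage (f := (Subtype.val : W → T × T)) Subtype.val_injective
    rwa [Set.preimage_image_eq _ Subtype.val_injective] at this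
  · rintro n _ ⟨y, hy, rfl⟩
    exact hcol n y hy
  · rintro n m _ ⟨x, hx, rfl⟩ _ ⟨y, hy, rfl⟩ h
    exact hE n m x hx y hy () h

theorem exists_enum (X : Set T) (hX : ¬ X.Countable) :
    ∃ g : T → T, (∀ ξ, g ξ ∈ X) ∧ ∀ η ξ, η < ξ → g η < g ξ := by
  have : Nonempty T := by
    by_contra h
    rw [not_nonempty_iff] at h
    exact hX (Set.to_countable _)
  obtain ⟨g, hg⟩ := wf_choice (J := T) (α := T) (· < ·) wellFounded_lt (fun _ a => a ∈ X)
    (fun _ _ b a => b < a) (by
      intro ξ x _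
      have hc : (⋃ η ∈ {η : T | η < ξ}, Set.Iic (x η)).Countable := by
        refine Set.Countable.biUnion ?_ fun η _ => T_Iic _
        refine (T_Iic ξ).mono ?_
        intro η hη
        exact le_of_lt (show η < ξ from hη)
      have hn : ¬ (X ⊆ ⋃ η ∈ {η : T | η < ξ}, Set.Iic (x η)) := fun h => hX (hc.mono h)
      obtain ⟨a, ha, ha'⟩ := Set.not_subset.1 hn
      refine ⟨a, ha, fun η hη => ?_⟩
      by_contra hle
      apply ha'
      refine Set.mem_iUnion₂.2 ⟨η, hη, not_lt.1 hle⟩)
  exact ⟨g, fun ξ => (hg ξ).1, fun η ξ h => (hg ξ).2 η h⟩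

/-- Assembling an increasing function on `ω₁ · ω` from blocks. -/
theorem assemble (h : ℕ → T → Ordinal.{0}) (h1 : ∀ n s t, s < t → h n s < h n t)
    (h2 : ∀ n m s t, n < m → h n s < h m t) :
    ∃ f : Ordinal.{0} → Ordinal.{0}, (∀ β γ, β < γ → γ < Om * Ordinal.omega0 → f β < f γ) ∧
      ∀ β, ∃ n t, f β = h n t := by
  let ν : Ordinal.{0} → ℕ := Function.invFun (Nat.cast : ℕ → Ordinal.{0})
  have hν : ∀ n : ℕ, ν (n : Ordinal.{0}) = n := Function.leftInverse_invFun Nat.cast_injective
  have hmod : ∀ β : Ordinal.{0}, β % Om < Om := fun β => Ordinal.mod_lt β Om_ne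
  refine ⟨fun β => h (ν (β / Om)) ⟨β % Om, hmod β⟩, ?_, fun β => ⟨_, _, rfl⟩⟩
  intro β γ hβγ hγ
  have g1 : γ / Om < Ordinal.omega0 := (Ordinal.lt_mul_iff_div_lt Om_ne).1 hγ
  have g2 : β / Om ≤ γ / Om := by
    by_contra hcon
    rw [not_le] at hcon
    have e1 : γ < Om * (β / Om) := (Ordinal.lt_mul_iff_div_lt Om_ne).2 hcon
    have e2 : Om * (β / Om) ≤ β := by
      conv_rhs => rw [← Ordinal.div_add_mod β Om]
      exact le_self_add
    exact absurd (hβγ.trans (e1.trans_le e2)) (lt_irrefl _)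
  rcases g2.lt_or_eq with h3 | h3
  · obtain ⟨n, hn⟩ := Ordinal.lt_omega0.1 (h3.trans g1)
    obtain ⟨m, hm⟩ := Ordinal.lt_omega0.1 g1
    apply h2
    rw [hn, hm, hν, hν]
    rw [hn, hm] at h3
    exact_mod_cast h3
  · change h (ν (β / Om)) ⟨β % Om, hmod β⟩ < h (ν (γ / Om)) ⟨γ % Om, hmod γ⟩
    rw [h3]
    apply h1
    change β % Om < γ % Om
    by_contra hcon
    rw [not_lt] at hcon
    have e1 : γ ≤ β := by
      rw [← Ordinal.div_add_mod γ Om, ← Ordinal.div_add_mod β Om, h3]
      exact add_le_add_right hcon _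
    exact absurd hβγ (not_lt.2 e1)

theorem positive : Arrow (Om * Om * Ordinal.omega0) := by
  classical
  intro c
  by_cases hK4 : (∃ g : Fin 4 → Ordinal.{0},
        StrictMono g ∧ (∀ i, g i < Om * Om * Ordinal.omega0) ∧ (∀ i j, i < j → ¬ c (g i) (g j)))
  · exact Or.inr hK4
  left
  -- the graph
  let G : Ordinal.{0} → Ordinal.{0} → Prop := fun x y => (x < y ∧ ¬ c x y) ∨ (y < x ∧ ¬ c y x)
  have hs : ∀ x y, G x y → G y x := fun x y h => h.symm
  have hlt : ∀ x y, x < y → G x y → ¬ c x y := by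
    rintro x y hxy (h | h)
    · exact h.2
    · exact absurd hxy h.1.asymm
  have hnoK : ∀ x y z w, x < y → y < z → z < w → w < Om * Om * Ordinal.omega0 →
      G x y → G x z → G x w → G y z → G y w → G z w → False := by
    intro x y z w h1 h2 h3 hb e1 e2 e3 e4 e5 e6
    apply hK4
    have hmono : StrictMono (![x, y, z, w] : Fin 4 → Ordinal.{0}) := by
      rw [Fin.strictMono_iff_lt_succ]
      intro i
      fin_cases i
      · exact h1
      · exact h2
      · exact h3
    refine ⟨![x, y, z, w], hmono, ?_, ?_⟩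
    · intro i
      refine lt_of_le_of_lt (hmono.monotone (Fin.le_last i)) ?_
      exact hb
    · intro i j hij
      fin_cases i <;> fin_cases j <;> first
        | exact absurd hij (by decide)
        | exact hlt _ _ h1 e1
        | exact hlt _ _ (h1.trans h2) e2
        | exact hlt _ _ (h1.trans (h2.trans h3)) e3
        | exact hlt _ _ h2 e4
        | exact hlt _ _ (h2.trans h3) e5
        | exact hlt _ _ h3 e6
  have hirr : ∀ x, ¬ G x x := by
    rintro x (h | h) <;> exact lt_irrefl _ h.1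
  -- all the orders of the four points
  have hnoK' : ∀ x y z w, x < Om * Om * Ordinal.omega0 → y < Om * Om * Ordinal.omega0 →
      z < Om * Om * Ordinal.omega0 → w < Om * Om * Ordinal.omega0 →
      G x y → G x z → G x w → G y z → G y w → G z w → False := by
    have key3 : ∀ x y z w, y < z → z < w → x < Om * Om * Ordinal.omega0 →
        w < Om * Om * Ordinal.omega0 →
        G x y → G x z → G x w → G y z → G y w → G z w → False := by
      intro x y z w h1 h2 hx hw e1 e2 e3 e4 e5 e6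
      have nxy : x ≠ y := fun h => hirr y (h ▸ e1)
      have nxz : x ≠ z := fun h => hirr z (h ▸ e2)
      have nxw : x ≠ w := fun h => hirr w (h ▸ e3)
      rcases lt_or_gt_of_ne nxy with h | h
      · exact hnoK x y z w h h1 h2 hw e1 e2 e3 e4 e5 e6
      rcases lt_or_gt_of_ne nxz with h' | h'
      · exact hnoK y x z w h h' h2 hw (hs _ _ e1) e4 e5 e2 e3 e6
      rcases lt_or_gt_of_ne nxw with h'' | h''
      · exact hnoK y z x w h1 h' h'' hw e4 (hs _ _ e1) e5 (hs _ _ e2) e6 e3
      · exact hnoK y z w x h1 h2 h'' hx e4 e5 (hs _ _ e1) e6 (hs _ _ e2) (hs _ _ e3)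
    intro x y z w hx hy hz hw e1 e2 e3 e4 e5 e6
    have nyz : y ≠ z := fun h => hirr z (h ▸ e4)
    have nyw : y ≠ w := fun h => hirr w (h ▸ e5)
    have nzw : z ≠ w := fun h => hirr w (h ▸ e6)
    rcases lt_or_gt_of_ne nyz with h | h <;> rcases lt_or_gt_of_ne nyw with h' | h' <;>
      rcases lt_or_gt_of_ne nzw with h'' | h''
    · exact key3 x y z w h h'' hx hw e1 e2 e3 e4 e5 e6
    · exact key3 x y w z h' h'' hx hz e1 e3 e2 e5 e4 (hs _ _ e6)
    · exact absurd (h.trans h'') h'.asymm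
    · exact key3 x w y z h' h hx hz e3 e1 e2 (hs _ _ e5) (hs _ _ e6) e4
    · exact key3 x z y w h h' hx hw e2 e1 e3 (hs _ _ e4) e6 e5
    · exact absurd (h''.trans h) h'.asymm
    · exact key3 x z w y h'' h' hx hy e2 e3 e1 e6 (hs _ _ e4) (hs _ _ e5)
    · exact key3 x w z y h'' h hx hy e3 e2 e1 (hs _ _ e6) (hs _ _ e5) (hs _ _ e4)
  -- finish from blocks
  have finish : ∀ h : ℕ → T → Ordinal.{0}, (∀ n s t, s < t → h n s < h n t) →
      (∀ n m s t, n < m → h n s < h m t) → (∀ n t, h n t < Om * Om * Ordinal.omega0) →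
      (∀ n m s t, ¬ G (h n s) (h m t)) →
      ∃ f : Ordinal.{0} → Ordinal.{0},
        StrictMonoOn f (Set.Iio ((Cardinal.aleph 1).ord * Ordinal.omega0)) ∧
        (∀ x, x < (Cardinal.aleph 1).ord * Ordinal.omega0 → f x < Om * Om * Ordinal.omega0) ∧
        (∀ x y, x < y → y < (Cardinal.aleph 1).ord * Ordinal.omega0 → c (f x) (f y)) := by
    intro h h1 h2 hb hG
    obtain ⟨f, hf1, hf2⟩ := assemble h h1 h2
    refine ⟨f, fun x _ y hy hxy => hf1 x y hxy hy, ?_, ?_⟩
    · intro x _
      obtain ⟨n, t, ht⟩ := hf2 x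
      rw [ht]; exact hb n t
    · intro x y hxy hy
      by_contra hcon
      have hlt' := hf1 x y hxy hy
      obtain ⟨n, s, hs'⟩ := hf2 x
      obtain ⟨m, t, ht'⟩ := hf2 y
      apply hG n m s t
      rw [← hs', ← ht']
      exact Or.inl ⟨hlt', hcon⟩
  by_cases hpos : ∃ x, x < Om * Om * Ordinal.omega0 ∧ ∃ m : ℕ, ∃ᶠ y in ell, G x (enc m y)
  · -- some neighbourhood is positive in some copy of `ω₁²`
    obtain ⟨x, hx, m, hm⟩ := hpos
    obtain ⟨a, V, ha, hV, hcol, hE⟩ := core_on {y | G x (enc m y)} hm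
      (fun y z => G (enc m y) (enc m z)) (fun y z h => hs _ _ h)
      (fun y hy z hz w hw h1 h2 h3 => hnoK' x _ _ _ hx (enc_bound m y) (enc_bound m z)
        (enc_bound m w) hy hz hw h1 h3 h2)
    have hX : ∀ n, ¬ {t : T | (a n, t) ∈ V n}.Countable := by
      intro n hc
      apply hV n
      refine (hc.image (fun t => (a n, t))).mono ?_
      rintro ⟨p, q⟩ hp
      have : p = a n := hcol n _ hp
      subst this
      exact ⟨q, hp, rfl⟩
    have hg := fun n => exists_enum _ (hX n)
    choose g hg1 hg2 using hg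
    refine finish (fun n t => enc m (a n, g n t)) ?_ ?_ ?_ ?_
    · intro n s t hst
      exact enc_lt2 _ rfl (hg2 n s t hst)
    · intro n k s t hnk
      exact enc_lt1 _ (ha hnk)
    · intro n t
      exact enc_bound m _
    · intro n k s t h
      exact hE n k _ (hg1 n s) _ (hg1 k t) h
  · -- all neighbourhoods are null
    push Not at hpos
    have : Nonempty (T × T) := ⟨(⟨0, Om_pos⟩, ⟨0, Om_pos⟩)⟩
    obtain ⟨x, hx⟩ := wf_choice (J := T ×ₗ ℕ) (α := T × T) (· < ·) (wellFounded_lt)
      (fun ξ a => True) (fun η ξ b a => b.1 < a.1 ∧ ¬ G (enc (ofLex η).2 b) (enc (ofLex ξ).2 a)) (by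
        intro ξ x _
        have hcount : {η : T ×ₗ ℕ | η < ξ}.Countable := by
          have : {η : T ×ₗ ℕ | η < ξ} ⊆ ofLex ⁻¹' (Set.Iic (ofLex ξ).1 ×ˢ (univ : Set ℕ)) := by
            intro η hη
            simp only [Set.mem_preimage, Set.mem_prod, Set.mem_Iic, Set.mem_univ, and_true]
            rw [Set.mem_ofPred_eq, Prod.Lex.lt_iff] at hη
            rcases hη with h | h
            · exact h.le
            · exact h.1.le
          refine Set.Countable.mono this ?_
          exact ((T_Iic _).prod (Set.countable_univ)).preimage ofLex.injective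
        have hev : ∀ᶠ a in ell, ∀ η ∈ {η : T ×ₗ ℕ | η < ξ},
            (x η).1 < a.1 ∧ ¬ G (enc (ofLex η).2 (x η)) (enc (ofLex ξ).2 a) := by
          refine (eventually_countable_ball hcount).2 fun η _ => ?_
          refine (late _).and ?_
          have h1 := hpos (enc (ofLex η).2 (x η)) (enc_bound _ _) (ofLex ξ).2
          exact h1
        obtain ⟨a, ha⟩ := hev.exists
        exact ⟨a, trivial, fun η hη => ha η hη⟩)
    have hL : ∀ (s t : T) (n m : ℕ), s < t → (toLex (s, n) : T ×ₗ ℕ) < toLex (t, m) := by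
      intro s t n m h
      exact Prod.Lex.lt_iff.2 (Or.inl h)
    refine finish (fun n t => enc n (x (toLex (t, n)))) ?_ ?_ ?_ ?_
    · intro n s t hst
      exact enc_lt1 _ ((hx _).2 _ (hL s t n n hst)).1
    · intro n k s t hnk
      exact enc_lt0 (by exact_mod_cast hnk) _ _
    · intro n t
      exact enc_bound n _
    · intro n k s t h
      rcases lt_trichotomy (toLex (s, n) : T ×ₗ ℕ) (toLex (t, k)) with h1 | h1 | h1
      · exact ((hx _).2 _ h1).2 h
      · have h2 : (s, n) = (t, k) := toLex.injective h1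
        obtain ⟨rfl, rfl⟩ := Prod.mk.inj h2
        exact hirr _ h
      · exact ((hx _).2 _ h1).2 (hs _ _ h)

end Pool.Agent.TH769.K4Pos
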