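import Mathlib

/-!
# Graphs without infinite paths

Every graph without an infinite path has an orientation with finite out-degrees.
-/

set_option autoImplicit false

namespace Pool.Agent.TH769.Rayless

open Set Cardinal

universe u

variable {V : Type u}

/-- `G` has no infinite path. -/
def NoRay (G : SimpleGraph V) : Prop :=
  ¬ ∃ f : ℕ → V, Function.Injective f ∧ ∀ n, G.Adj (f n) (f (n + 1))

/-- Any two members of `Z` have infinitely many common neighbours. -/
def Linked (G : SimpleGraph V) (Z : Set V) : Prop :=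
  ∀ x ∈ Z, ∀ y ∈ Z, x ≠ y → {z | G.Adj x z ∧ G.Adj y z}.Infinite

/-- A linked set is finite in a graph without an infinite path. -/
theorem Linked.finite {G : SimpleGraph V} (hG : NoRay G) {Z : Set V} (hZ : Linked G Z) :
    Z.Finite := by
  classical
  by_contra hinf
  have hinf : Z.Infinite := hinf
  apply hG
  -- state: used set, and the last vertex in `Z`
  have step : ∀ (U : Finset V) (x : V), x ∈ Z → ∃ y w : V, y ∈ Z ∧ y ∉ U ∧ w ∉ U ∧ w ≠ y ∧ w ≠ x ∧ y ≠ x ∧
      G.Adj x w ∧ G.Adj w y := by
    intro U x hx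
    obtain ⟨y, hy, hyU⟩ := hinf.exists_notMem_finset (insert x U)
    rw [Finset.mem_insert, not_or] at hyU
    obtain ⟨w, hw, hwU⟩ := (hZ x hx y hy (Ne.symm hyU.1)).exists_notMem_finset U
    exact ⟨y, w, hy, hyU.2, hwU, hw.2.ne', hw.1.ne', hyU.1, hw.1, hw.2.symm⟩
  choose! Y Wn h using step
  obtain ⟨x0, hx0⟩ := hinf.nonempty
  -- sequence of states (U, x)
  let st : ℕ → Finset V × V := fun n => Nat.rec ({x0}, x0)
    (fun _ s => (insert (Wn s.1 s.2) (insert (Y s.1 s.2) s.1), Y s.1 s.2)) n
  have hst : ∀ n, st (n + 1) = (insert (Wn (st n).1 (st n).2) (insert (Y (st n).1 (st n).2) (st n).1),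
      Y (st n).1 (st n).2) := fun n => rfl
  have hZn : ∀ n, (st n).2 ∈ Z := by
    intro n
    cases n with
    | zero => exact hx0
    | succ n =>
      rw [hst]
      have : (st n).2 ∈ Z := by
        induction n with
        | zero => exact hx0
        | succ n ih => rw [hst]; exact (h _ _ ih).1
      exact (h _ _ this).1
  have hmem : ∀ n, (st n).2 ∈ (st n).1 := by
    intro n
    cases n with
    | zero => exact Finset.mem_singleton_self _
    | succ n => rw [hst]; simp
  have hsub : ∀ n, (st n).1 ⊆ (st (n + 1)).1 := by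
    intro n
    rw [hst]
    intro v hv
    simp [hv]
  have hmono : ∀ n m, n ≤ m → (st n).1 ⊆ (st m).1 := by
    intro n m hnm
    induction hnm with
    | refl => exact Finset.Subset.refl _
    | step _ ih => exact ih.trans (hsub _)
  -- the path: x0, w0, x1, w1, ...
  let x : ℕ → V := fun n => (st n).2
  let w : ℕ → V := fun n => Wn (st n).1 (st n).2
  have hx : ∀ n, x (n + 1) ∉ (st n).1 := fun n => (h _ _ (hZn n)).2.1
  have hw : ∀ n, w n ∉ (st n).1 := fun n => (h _ _ (hZn n)).2.2.1
  have hwx : ∀ n, w n ≠ x (n + 1) := fun n => (h _ _ (hZn n)).2.2.2.1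
  have hadj1 : ∀ n, G.Adj (x n) (w n) := fun n => (h _ _ (hZn n)).2.2.2.2.2.2.1
  have hadj2 : ∀ n, G.Adj (w n) (x (n + 1)) := fun n => (h _ _ (hZn n)).2.2.2.2.2.2.2
  have hwmem : ∀ n, w n ∈ (st (n + 1)).1 := by
    intro n; rw [hst]; simp [w]
  have hxx : ∀ n m, n < m → x n ≠ x m := by
    intro n m hnm heq
    obtain ⟨m, rfl⟩ : ∃ k, m = k + 1 := ⟨m - 1, by omega⟩
    apply hx m
    rw [← heq]
    exact hmono n m (by omega) (hmem n)
  have hxw : ∀ n m, x n ≠ w m := by
    intro n m heq
    rcases Nat.lt_or_ge m n with hlt | hge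
    · obtain ⟨n, rfl⟩ : ∃ k, n = k + 1 := ⟨n - 1, by omega⟩
      rcases Nat.lt_or_ge m n with hlt' | hge'
      · apply hx n
        rw [heq]
        exact hmono (m + 1) n hlt' (hwmem m)
      · have : m = n := by omega
        subst this
        exact hwx m heq.symm
    · apply hw m
      rw [← heq]
      exact hmono n m hge (hmem n)
  have hww : ∀ n m, n < m → w n ≠ w m := by
    intro n m hnm heq
    apply hw m
    rw [← heq]
    exact hmono (n + 1) m hnm (hwmem n)
  refine ⟨fun n => if n % 2 = 0 then x (n / 2) else w (n / 2), ?_, ?_⟩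
  · intro a b hab
    simp only at hab
    split_ifs at hab with h1 h2 h2
    · rcases lt_trichotomy (a / 2) (b / 2) with h3 | h3 | h3
      · exact absurd hab (hxx _ _ h3)
      · omega
      · exact absurd hab.symm (hxx _ _ h3)
    · exact absurd hab (hxw _ _)
    · exact absurd hab.symm (hxw _ _)
    · rcases lt_trichotomy (a / 2) (b / 2) with h3 | h3 | h3
      · exact absurd hab (hww _ _ h3)
      · omega
      · exact absurd hab.symm (hww _ _ h3)
  · intro n
    rcases Nat.even_or_odd n with hn | hn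
    · have h1 : n % 2 = 0 := Nat.even_iff.1 hn
      have h2 : (n + 1) % 2 ≠ 0 := by omega
      have h3 : (n + 1) / 2 = n / 2 := by omega
      simp only [h1, if_true, if_neg h2, h3]
      exact hadj1 _
    · have h1 : n % 2 = 1 := Nat.odd_iff.1 hn
      have h2 : (n + 1) % 2 = 0 := by omega
      have h3 : (n + 1) / 2 = n / 2 + 1 := by omega
      simp only [h1, h2, if_true, h3]
      exact hadj2 _

/-- A set containing the common neighbours of any two of its points having only finitely many. -/
def Closed (G : SimpleGraph V) (C : Set V) : Prop :=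
  ∀ x ∈ C, ∀ y ∈ C, x ≠ y → {z | G.Adj x z ∧ G.Adj y z}.Finite → ∀ z, G.Adj x z → G.Adj y z → z ∈ C

theorem Closed.finite_nbrs {G : SimpleGraph V} (hG : NoRay G) {C : Set V} (hC : Closed G C)
    {x : V} (hx : x ∉ C) : {y | y ∈ C ∧ G.Adj x y}.Finite := by
  apply Linked.finite hG
  intro y hy z hz hyz
  by_contra hfin
  rw [Set.not_infinite] at hfin
  exact hx (hC y hy.1 z hz.1 hyz hfin x hy.2.symm hz.2.symm)

/-- One step of the closure. -/
def next (G : SimpleGraph V) (X : Set V) : Set V :=
  X ∪ ⋃ p ∈ {p : V × V | p.1 ∈ X ∧ p.2 ∈ X ∧ p.1 ≠ p.2 ∧ {z | G.Adj p.1 z ∧ G.Adj p.2 z}.Finite},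
    {z | G.Adj p.1 z ∧ G.Adj p.2 z}

/-- The closure. -/
def cl (G : SimpleGraph V) (X : Set V) : Set V := ⋃ n : ℕ, (next G)^[n] X

theorem subset_next (G : SimpleGraph V) (X : Set V) : X ⊆ next G X := subset_union_left

theorem next_mono {G : SimpleGraph V} {X Y : Set V} (h : X ⊆ Y) : next G X ⊆ next G Y := by
  refine Set.union_subset_union h ?_
  intro z hz
  simp only [Set.mem_iUnion] at hz ⊢
  obtain ⟨p, ⟨h1, h2, h3, h4⟩, h5⟩ := hz
  exact ⟨p, ⟨h h1, h h2, h3, h4⟩, h5⟩

theorem iterate_mono {G : SimpleGraph V} {X Y : Set V} (h : X ⊆ Y) (n : ℕ) :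
    (next G)^[n] X ⊆ (next G)^[n] Y := by
  induction n with
  | zero => exact h
  | succ n ih => rw [Function.iterate_succ_apply', Function.iterate_succ_apply']; exact next_mono ih

theorem subset_cl (G : SimpleGraph V) (X : Set V) : X ⊆ cl G X := by
  intro x hx
  exact Set.mem_iUnion.2 ⟨0, hx⟩

theorem cl_mono {G : SimpleGraph V} {X Y : Set V} (h : X ⊆ Y) : cl G X ⊆ cl G Y :=
  Set.iUnion_mono fun n => iterate_mono h n

theorem iterate_le {G : SimpleGraph V} {X : Set V} {n m : ℕ} (h : n ≤ m) :
    (next G)^[n] X ⊆ (next G)^[m] X := by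
  induction h with
  | refl => exact Subset.rfl
  | step _ ih => rw [Function.iterate_succ_apply']; exact ih.trans (subset_next _ _)

theorem closed_cl (G : SimpleGraph V) (X : Set V) : Closed G (cl G X) := by
  intro x hx y hy hxy hfin z h1 h2
  obtain ⟨n, hn⟩ := Set.mem_iUnion.1 hx
  obtain ⟨m, hm⟩ := Set.mem_iUnion.1 hy
  refine Set.mem_iUnion.2 ⟨max n m + 1, ?_⟩
  rw [Function.iterate_succ_apply']
  refine Or.inr ?_
  refine Set.mem_iUnion₂.2 ⟨(x, y), ⟨iterate_le (le_max_left _ _) hn,
    iterate_le (le_max_right _ _) hm, hxy, hfin⟩, h1, h2⟩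

theorem mk_next_le (G : SimpleGraph V) {X : Set V} {κ : Cardinal.{u}} (hκ : ℵ₀ ≤ κ) (hX : #X ≤ κ) :
    #(next G X) ≤ κ := by
  refine (mk_union_le _ _).trans ?_
  refine Cardinal.add_le_of_le hκ hX ?_
  refine (Cardinal.mk_biUnion_le _ _).trans ?_
  have h1 : #{p : V × V | p.1 ∈ X ∧ p.2 ∈ X ∧ p.1 ≠ p.2 ∧
      {z | G.Adj p.1 z ∧ G.Adj p.2 z}.Finite} ≤ κ := by
    have h2 : #(X ×ˢ X : Set (V × V)) ≤ κ := by
      rw [Cardinal.mk_setProd]
      exact Cardinal.mul_le_of_le hκ hX hX
    refine (Cardinal.mk_le_mk_of_subset ?_).trans h2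
    rintro p ⟨h1, h2, -⟩
    exact ⟨h1, h2⟩
  refine Cardinal.mul_le_of_le hκ h1 ?_
  refine (ciSup_le' fun p => ?_).trans hκ
  have h3 := p.2.2.2.2
  exact (Cardinal.lt_aleph0_iff_set_finite.2 h3).le

theorem mk_cl_le (G : SimpleGraph V) {X : Set V} {κ : Cardinal.{u}} (hκ : ℵ₀ ≤ κ) (hX : #X ≤ κ) :
    #(cl G X) ≤ κ := by
  have h1 : ∀ n, #((next G)^[n] X) ≤ κ := by
    intro n
    induction n with
    | zero => exact hX
    | succ n ih => rw [Function.iterate_succ_apply']; exact mk_next_le G hκ ih
  unfold cl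
  have h2 := Cardinal.mk_iUnion_le_lift (fun n => (next G)^[n] X)
  simp only [Cardinal.mk_nat, Cardinal.lift_aleph0, Cardinal.lift_uzero] at h2
  exact h2.trans (Cardinal.mul_le_of_le hκ hκ (ciSup_le' h1))

/-- A directed union of closed sets is closed. -/
theorem closed_iUnion {G : SimpleGraph V} {ι : Type*} [LinearOrder ι] (C : ι → Set V)
    (hC : ∀ i, Closed G (C i)) (hmono : Monotone C) : Closed G (⋃ i, C i) := by
  intro x hx y hy hxy hfin z h1 h2
  obtain ⟨i, hi⟩ := Set.mem_iUnion.1 hx
  obtain ⟨j, hj⟩ := Set.mem_iUnion.1 hy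
  refine Set.mem_iUnion.2 ⟨max i j, ?_⟩
  exact hC _ x (hmono (le_max_left _ _) hi) y (hmono (le_max_right _ _) hj) hxy hfin z h1 h2

/-- Every graph without an infinite path has an orientation with finite out-degrees. -/
theorem orientation {G : SimpleGraph V} (hG : NoRay G) (S : Set V) :
    ∃ F : V → Finset V, (∀ x, ∀ y ∈ F x, G.Adj x y) ∧
      ∀ x ∈ S, ∀ y ∈ S, G.Adj x y → x ∈ F y ∨ y ∈ F x := by
  classical
  induction hκ : #S using WellFoundedLT.induction generalizing S with
  | _ κ IH =>
    rcases le_or_gt κ ℵ₀ with hle | hgt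
    · -- countable sets
      have hc : S.Countable := by rw [← Cardinal.le_aleph0_iff_set_countable, hκ]; exact hle
      obtain ⟨e, he⟩ := Set.countable_iff_exists_injOn.1 hc
      have hfin : ∀ x, {y | y ∈ S ∧ e y < e x ∧ G.Adj x y}.Finite := by
        intro x
        refine Set.Finite.of_finite_image (f := e) ?_ ?_
        · refine (Set.finite_Iio (e x)).subset ?_
          rintro _ ⟨y, hy, rfl⟩
          exact hy.2.1
        · intro a ha b hb hab
          exact he ha.1 hb.1 hab
      refine ⟨fun x => (hfin x).toFinset, ?_, ?_⟩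
      · intro x y hy
        rw [Set.Finite.mem_toFinset] at hy
        exact hy.2.2
      · intro x hx y hy hxy
        simp only [Set.Finite.mem_toFinset]
        rcases lt_trichotomy (e x) (e y) with h | h | h
        · exact Or.inl ⟨hx, h, hxy.symm⟩
        · exact absurd (he hx hy h) hxy.ne
        · exact Or.inr ⟨hy, h, hxy⟩
    · -- uncountable sets
      let I : Type u := κ.ord.ToType
      have hI : #S = #I := by rw [hκ]; simp [I]
      obtain ⟨e⟩ := Cardinal.eq.1 hI
      let init : I → Set V := fun i => Subtype.val '' {s : S | e s ≤ i}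
      have hinit : ∀ i, #(init i) < κ := by
        intro i
        refine (Cardinal.mk_image_le).trans_lt ?_
        have h1 : #{s : S | e s ≤ i} = #(Set.Iic i) := by
          refine Cardinal.mk_congr (e.subtypeEquiv fun s => Iff.rfl)
        rw [h1]
        have h2 : #(Set.Iio i) < κ := by
          have := Cardinal.mk_Iio_lt i (by simp [I])
          simpa [I] using this
        have h3 : Set.Iic i = Set.Iio i ∪ {i} := by ext x; simp [le_iff_lt_or_eq]
        rw [h3]
        refine (mk_union_le _ _).trans_lt ?_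
        rw [Cardinal.mk_singleton]
        exact Cardinal.add_lt_of_lt hgt.le h2 (Cardinal.one_lt_aleph0.trans hgt)
      have hcl : ∀ i, #(cl G (init i)) < κ := by
        intro i
        have h1 := mk_cl_le G (κ := max ℵ₀ #(init i)) (le_max_left _ _) (le_max_right _ _)
        exact h1.trans_lt (max_lt hgt (hinit i))
      have hex : ∀ x : V, ∃ i : WithTop I, (x ∈ S → ∃ j : I, i = j ∧ x ∈ cl G (init j)) ∧
          ∀ j : I, (j : WithTop I) < i → x ∉ cl G (init j) := by
        intro x
        by_cases hne : ∃ j, x ∈ cl G (init j)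
        · obtain ⟨j, hj, hmin⟩ := (wellFounded_lt (α := I)).has_min {j | x ∈ cl G (init j)} hne
          refine ⟨j, fun _ => ⟨j, rfl, hj⟩, fun j' hj' hx => ?_⟩
          exact hmin j' hx (WithTop.coe_lt_coe.1 hj')
        · push Not at hne
          refine ⟨⊤, fun hx => ?_, fun j _ => hne j⟩
          have hmem : x ∈ init (e ⟨x, hx⟩) :=
            ⟨⟨x, hx⟩, (le_refl _ : e ⟨x, hx⟩ ≤ e ⟨x, hx⟩), rfl⟩
          exact absurd (subset_cl G _ hmem) (hne (e ⟨x, hx⟩))
      choose z hz1 hz2 using hex
      have hclass : ∀ i : I, ∃ F : V → Finset V, (∀ x, ∀ y ∈ F x, G.Adj x y) ∧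
          ∀ x, (x ∈ S ∧ z x = i) → ∀ y, (y ∈ S ∧ z y = i) → G.Adj x y → x ∈ F y ∨ y ∈ F x := by
        intro i
        have hlt : #{x | x ∈ S ∧ z x = i} < κ := by
          refine (Cardinal.mk_le_mk_of_subset ?_).trans_lt (hcl i)
          rintro x ⟨hx, hxi⟩
          obtain ⟨j, hj, hxj⟩ := hz1 x hx
          have : j = i := by
            rw [hxi] at hj
            exact (WithTop.coe_eq_coe.1 hj).symm
          rw [← this]; exact hxj
        obtain ⟨F, h1, h2⟩ := IH _ hlt _ rfl
        exact ⟨F, h1, fun x hx y hy => h2 x hx y hy⟩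
      choose F hF1 hF2 using hclass
      have hfin : ∀ x, {y | y ∈ S ∧ z y < z x ∧ G.Adj x y}.Finite := by
        intro x
        have hC : Closed G (⋃ j : {j : I // (j : WithTop I) < z x}, cl G (init j)) := by
          refine closed_iUnion _ (fun j => closed_cl G _) ?_
          intro j j' hjj
          apply cl_mono
          rintro _ ⟨s, hs, rfl⟩
          exact ⟨s, le_trans (show e s ≤ j.1 from hs) hjj, rfl⟩
        have hx : x ∉ (⋃ j : {j : I // (j : WithTop I) < z x}, cl G (init j)) := by
          intro h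
          obtain ⟨j, hj⟩ := Set.mem_iUnion.1 h
          exact hz2 x j.1 j.2 hj
        refine (hC.finite_nbrs hG hx).subset ?_
        rintro y ⟨hy, hyz, hadj⟩
        refine ⟨?_, hadj⟩
        obtain ⟨j, hj, hyj⟩ := hz1 y hy
        exact Set.mem_iUnion.2 ⟨⟨j, by rw [← hj]; exact hyz⟩, hyj⟩
      let F0 : V → Finset V := fun x => (hfin x).toFinset ∪
        (if h : ∃ i : I, z x = i then F h.choose x else ∅)
      refine ⟨F0, ?_, ?_⟩
      · intro x y hy
        rw [Finset.mem_union, Set.Finite.mem_toFinset] at hy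
        rcases hy with hy | hy
        · exact hy.2.2
        · split_ifs at hy with h
          · exact hF1 _ x y hy
          · simp at hy
      · intro x hx y hy hxy
        have key : ∀ i : I, z x = i → z y = i → x ∈ F0 y ∨ y ∈ F0 x := by
          intro i hxi hyi
          have h1 : ∃ i : I, z x = i := ⟨i, hxi⟩
          have h2 : ∃ i : I, z y = i := ⟨i, hyi⟩
          have h3 : h1.choose = i :=
            (WithTop.coe_eq_coe.1 (hxi.symm.trans h1.choose_spec)).symm
          have h4 : h2.choose = i :=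
            (WithTop.coe_eq_coe.1 (hyi.symm.trans h2.choose_spec)).symm
          rcases hF2 i x ⟨hx, hxi⟩ y ⟨hy, hyi⟩ hxy with h | h
          · left
            refine Finset.mem_union_right _ ?_
            rw [dif_pos h2, h4]; exact h
          · right
            refine Finset.mem_union_right _ ?_
            rw [dif_pos h1, h3]; exact h
        rcases lt_trichotomy (z x) (z y) with h | h | h
        · left
          refine Finset.mem_union_left _ ?_
          rw [Set.Finite.mem_toFinset]
          exact ⟨hx, h, hxy.symm⟩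
        · obtain ⟨i, hi, -⟩ := hz1 x hx
          exact key i hi (h ▸ hi)
        · right
          refine Finset.mem_union_left _ ?_
          rw [Set.Finite.mem_toFinset]
          exact ⟨hy, h, hxy⟩

end Pool.Agent.TH769.Rayless
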