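import Mathlib
import Pool.Agent.TH769.Rayless

/-!
# Large independent sets from Baire category

`G` is a graph without infinite paths on a well-ordered set `V`, and `F` is an orientation of `G`
with finite out-degrees.  A subset of `V` is given by its characteristic function `A : V → Bool`.
-/

set_option autoImplicit false

namespace Pool.Agent.TH769.CohenPath

open Set Cardinal Ordinal Filter Pool.Agent.TH769.Rayless

section emb

variable {V : Type} [LinearOrder V]

/-- The set `S` has order type at least `β`. -/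
def Emb (β : Ordinal.{0}) (S : Set V) : Prop :=
  ∃ h : Ordinal.{0} → V, StrictMonoOn h (Set.Iio β) ∧ ∀ x < β, h x ∈ S

theorem Emb.mono {β : Ordinal.{0}} {S S' : Set V} (h : Emb β S) (hS : S ⊆ S') : Emb β S' := by
  obtain ⟨g, h1, h2⟩ := h
  exact ⟨g, h1, fun x hx => hS (h2 x hx)⟩

theorem Emb.add {β₁ β₂ : Ordinal.{0}} {S₁ S₂ : Set V} (h₁ : Emb β₁ S₁) (h₂ : Emb β₂ S₂)
    (hlt : ∀ x ∈ S₁, ∀ y ∈ S₂, x < y) : Emb (β₁ + β₂) (S₁ ∪ S₂) := by
  classical
  obtain ⟨g₁, a1, a2⟩ := h₁
  obtain ⟨g₂, b1, b2⟩ := h₂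
  have hsub : ∀ x, x < β₁ + β₂ → ¬ x < β₁ → x - β₁ < β₂ := by
    intro x hx hx1
    rw [← Ordinal.add_sub_cancel_of_le (not_lt.1 hx1)] at hx
    exact (add_lt_add_iff_left _).1 hx
  refine ⟨fun x => if x < β₁ then g₁ x else g₂ (x - β₁), ?_, ?_⟩
  · intro x hx y hy hxy
    have hx' : x < β₁ + β₂ := hx
    have hy' : y < β₁ + β₂ := hy
    by_cases h1 : x < β₁ <;> by_cases h2 : y < β₁
    · simp only [if_pos h1, if_pos h2]; exact a1 h1 h2 hxy
    · simp only [if_pos h1, if_neg h2]
      exact hlt _ (a2 x h1) _ (b2 _ (hsub y hy' h2))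
    · exact absurd (hxy.trans h2) h1
    · simp only [if_neg h1, if_neg h2]
      refine b1 (hsub x hx' h1) (hsub y hy' h2) ?_
      have e1 := Ordinal.add_sub_cancel_of_le (not_lt.1 h1)
      have e2 := Ordinal.add_sub_cancel_of_le (not_lt.1 h2)
      rw [← e1, ← e2] at hxy
      exact (add_lt_add_iff_left _).1 hxy
  · intro x hx
    by_cases h1 : x < β₁
    · simp only [if_pos h1]; exact Or.inl (a2 x h1)
    · simp only [if_neg h1]; exact Or.inr (b2 _ (hsub x hx h1))

variable [WellFoundedLT V]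

theorem Emb.le_type {β : Ordinal.{0}} {S : Set V} (h : Emb β S) :
    β ≤ Ordinal.type (fun a b : S => a < b) := by
  obtain ⟨g, h1, h2⟩ := h
  rw [← type_toType β, type_le_iff']
  have hb : ∀ x : β.ToType, (ToType.mk.symm x : Set.Iio β).1 < β := fun x =>
    (ToType.mk.symm x : Set.Iio β).2
  refine ⟨RelEmbedding.ofMonotone (fun x : β.ToType =>
    (⟨g (ToType.mk.symm x : Set.Iio β).1, h2 _ (hb x)⟩ : S)) ?_⟩
  intro a b hab
  refine h1 (hb a) (hb b) ?_
  rw [Subtype.coe_lt_coe, OrderIso.lt_iff_lt]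
  exact hab

theorem emb_of_le_type [Nonempty V] {β : Ordinal.{0}} {S : Set V}
    (h : β ≤ Ordinal.type (fun a b : S => a < b)) : Emb β S := by
  classical
  let r : S → S → Prop := fun a b => a < b
  let g : Ordinal.{0} → V := fun x =>
    if hx : x < Ordinal.type r then (Ordinal.enum r ⟨x, hx⟩).1 else Classical.arbitrary V
  refine ⟨g, ?_, ?_⟩
  · intro x hx y hy hxy
    have hx' : x < Ordinal.type r := lt_of_lt_of_le hx h
    have hy' : y < Ordinal.type r := lt_of_lt_of_le hy h
    simp only [g, dif_pos hx', dif_pos hy']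
    have := (Ordinal.enum_lt_enum (r := r) (o₁ := ⟨x, hx'⟩) (o₂ := ⟨y, hy'⟩)).2 hxy
    exact this
  · intro x hx
    have hx' : x < Ordinal.type r := lt_of_lt_of_le hx h
    simp only [g, dif_pos hx']
    exact Subtype.coe_prop _

end emb

section dense

variable {V : Type}

/-- Every finite partial assignment extends to a member of `D`. -/
def FinDense (D : Set (V → Bool)) : Prop :=
  ∀ (A : V → Bool) (E : Finset V), ∃ A' ∈ D, ∀ x ∈ E, A' x = A x

/-- Membership in `D` is decided by finitely many values. -/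
def FinOpen (D : Set (V → Bool)) : Prop :=
  ∀ A ∈ D, ∃ E : Finset V, ∀ A' : V → Bool, (∀ x ∈ E, A' x = A x) → A' ∈ D

theorem FinOpen.isOpen {D : Set (V → Bool)} (h : FinOpen D) : IsOpen D := by
  rw [isOpen_pi_iff]
  intro A hA
  obtain ⟨E, hE⟩ := h A hA
  refine ⟨E, fun x => {A x}, fun x _ => ⟨isOpen_discrete _, rfl⟩, ?_⟩
  intro A' hA'
  exact hE A' (fun x hx => hA' x hx)

theorem FinDense.dense {D : Set (V → Bool)} (h : FinDense D) : Dense D := by
  rw [dense_iff_inter_open]
  rintro O hO ⟨A, hA⟩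
  rw [isOpen_pi_iff] at hO
  obtain ⟨E, u, hu, hsub⟩ := hO A hA
  obtain ⟨A', hA', hE⟩ := h A E
  refine ⟨A', hsub ?_, hA'⟩
  intro x hx
  rw [hE x hx]
  exact (hu x hx).2

/-- The cube `2 ^ V` is not the union of at most `|V|` nowhere dense sets. -/
def BaireCube (V : Type) : Prop :=
  ∀ 𝒩 : Set (Set (V → Bool)), #𝒩 ≤ #V → (∀ N ∈ 𝒩, IsNowhereDense N) → ⋃₀ 𝒩 ≠ Set.univ

theorem BaireCube.exists_mem (hV : BaireCube V) {I : Type} (hI : #I ≤ #V) (D : I → Set (V → Bool))
    (hD : ∀ i, FinOpen (D i) ∧ FinDense (D i)) : ∃ A, ∀ i, A ∈ D i := by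
  have h := hV (Set.range fun i => (D i)ᶜ) (mk_range_le.trans hI) (by
    rintro _ ⟨i, rfl⟩
    have hc : IsClosed ((D i)ᶜ) := (hD i).1.isOpen.isClosed_compl
    rw [IsNowhereDense, hc.closure_eq, interior_compl, (hD i).2.dense.closure_eq, compl_univ])
  rw [Set.ne_univ_iff_exists_notMem] at h
  obtain ⟨A, hA⟩ := h
  refine ⟨A, fun i => ?_⟩
  by_contra hcon
  exact hA ⟨_, ⟨i, rfl⟩, hcon⟩

/-- The combinatorial form of `BaireCube`. -/
def FinBaire (V : Type) : Prop :=
  ∀ (I : Type) (D : I → Set (V → Bool)), #I ≤ #V → (∀ i, FinOpen (D i) ∧ FinDense (D i)) →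
    ∃ A, ∀ i, A ∈ D i

theorem BaireCube.finBaire (hV : BaireCube V) : FinBaire V :=
  fun _ D hI hD => hV.exists_mem hI D hD

/-- Countable cubes satisfy the Baire category theorem. -/
theorem finBaire_of_countable (h : #V ≤ ℵ₀) : FinBaire V := by
  intro I D hI hD
  have hc : Countable I := Cardinal.mk_le_aleph0_iff.1 (hI.trans h)
  have hd : Dense (⋂ i, D i) :=
    dense_iInter_of_isOpen (fun i => (hD i).1.isOpen) (fun i => (hD i).2.dense)
  obtain ⟨A, hA⟩ := hd.nonempty
  exact ⟨A, fun i => Set.mem_iInter.1 hA i⟩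

theorem FinBaire.congr {W : Type} (hV : FinBaire V) (e : V ≃ W) : FinBaire W := by
  classical
  intro I D hI hD
  obtain ⟨A, hA⟩ := hV I (fun i => {A | (fun w => A (e.symm w)) ∈ D i})
    (hI.trans (Cardinal.mk_congr e).symm.le) (by
      intro i
      constructor
      · intro A hA
        obtain ⟨E, hE⟩ := (hD i).1 _ hA
        refine ⟨E.map e.symm.toEmbedding, fun A' hA' => hE _ ?_⟩
        intro w hw
        exact hA' _ (Finset.mem_map_of_mem _ hw)
      · intro A E
        obtain ⟨A', hA', hAE⟩ := (hD i).2 (fun w => A (e.symm w)) (E.map e.toEmbedding)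
        refine ⟨fun v => A' (e v), ?_, ?_⟩
        · change (fun w => A' (e (e.symm w))) ∈ D i
          simpa using hA'
        · intro v hv
          have := hAE (e v) (Finset.mem_map_of_mem _ hv)
          simpa using this)
  exact ⟨_, hA⟩

/-- The limit of the requirements `Zf i` (false) and `Pf i` (true). -/
def LimReq {ι : Type} (Z : Finset V) (Zf Pf : ι → Finset V) (T : Set ι) : Set (V → Bool) :=
  {A | (∃ z ∈ Z, A z = true) ∨ ∃ i ∈ T, (∀ z ∈ Zf i, A z = false) ∧ ∀ z ∈ Pf i, A z = true}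

theorem limReq_open {ι : Type} (Z : Finset V) (Zf Pf : ι → Finset V) (T : Set ι) :
    FinOpen (LimReq Z Zf Pf T) := by
  classical
  rintro A (⟨z, hz, hA⟩ | ⟨i, hi, h1, h2⟩)
  · exact ⟨{z}, fun A' hA' => Or.inl ⟨z, hz, by rw [hA' z (Finset.mem_singleton_self _), hA]⟩⟩
  · refine ⟨Zf i ∪ Pf i, fun A' hA' => Or.inr ⟨i, hi, fun z hz => ?_, fun z hz => ?_⟩⟩
    · rw [hA' z (Finset.mem_union_left _ hz), h1 z hz]
    · rw [hA' z (Finset.mem_union_right _ hz), h2 z hz]

theorem limReq_dense {ι : Type} (U : Ultrafilter ι) (Z : Finset V) (Zf Pf : ι → Finset V)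
    (hdisj : ∀ i, Disjoint (Zf i) (Pf i)) (hP : ∀ z, ∀ᶠ i in (U : Filter ι), z ∉ Pf i)
    (hZ : ∀ z, (∀ᶠ i in (U : Filter ι), z ∈ Zf i) → z ∈ Z) (T : Set ι) (hT : T ∈ U) :
    FinDense (LimReq Z Zf Pf T) := by
  classical
  intro A E
  by_cases hcase : ∃ z ∈ Z, z ∈ E ∧ A z = true
  · obtain ⟨z, hz, hzE, hA⟩ := hcase
    exact ⟨A, Or.inl ⟨z, hz, hA⟩, fun _ _ => rfl⟩
  · push Not at hcase
    have hev : ∀ᶠ i in (U : Filter ι), ∀ z ∈ E, (A z = true → z ∉ Zf i) ∧ z ∉ Pf i := by
      rw [Filter.eventually_all_finset]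
      intro z hzE
      refine Filter.Eventually.and ?_ (hP z)
      by_cases hA : A z = true
      · have h1 : z ∉ Z := fun h => hcase z h hzE hA
        have h2 : ¬ ∀ᶠ i in (U : Filter ι), z ∈ Zf i := fun h => h1 (hZ z h)
        exact (Ultrafilter.eventually_not.2 h2).mono fun i hi _ => hi
      · exact Filter.Eventually.of_forall fun i h => absurd h hA
    obtain ⟨i, hi, hiT⟩ := (hev.and hT).exists
    refine ⟨fun z => if z ∈ Zf i then false else if z ∈ Pf i then true else A z,
      Or.inr ⟨i, hiT, fun z hz => by simp [hz], fun z hz => ?_⟩, fun z hz => ?_⟩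
    · have : z ∉ Zf i := fun h => Finset.disjoint_left.1 (hdisj i) h hz
      simp [this, hz]
    · have h1 := hi z hz
      by_cases h2 : z ∈ Zf i
      · have h3 : A z = false := by
          cases h4 : A z
          · rfl
          · exact absurd h2 (h1.1 h4)
        simp [h2, h3]
      · simp [h2, h1.2]

end dense

section good

variable {V : Type} [LinearOrder V] [WellFoundedLT V] [Nonempty V]

/-- The points of `A` without out-neighbours in `A`. -/
def Keep (F : V → Finset V) (A : V → Bool) : Set V := {x | A x = true ∧ ∀ y ∈ F x, A y = false}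

/-- Generic subsets of `V` avoiding a finite set keep a subset of order type `β` of the range of
`g`. -/
def Con (F : V → Finset V) (β : Ordinal.{0}) (g : Ordinal.{0} → V) (Z : Finset V) : Prop :=
  ∃ (I : Type) (D : I → Set (V → Bool)), #I ≤ #V ∧ (∀ i, FinOpen (D i) ∧ FinDense (D i)) ∧
    ∀ A : V → Bool, (∀ i, A ∈ D i) → (∀ z ∈ Z, A z = false) →
      Emb β {x | x ∈ g '' Set.Iio β ∧ x ∈ Keep F A}

/-- The successor step. -/
theorem succ_step {G : SimpleGraph V} {F : V → Finset V} (hV : ℵ₀ ≤ #V) {β : Ordinal.{0}}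
    (g : Ordinal.{0} → V) (hg : StrictMonoOn g (Set.Iio (β * ω)))
    (Zf Pf : ℕ → Finset V) (hdisj : ∀ n, Disjoint (Zf n) (Pf n)) (hG : NoRay G)
    (hP : ∀ z, {n | z ∈ Pf n}.Finite)
    (hlink : Linked G {z | ∀ᶠ n in (hyperfilter ℕ : Filter ℕ), z ∈ Zf n})
    (hpc : ∀ n : ℕ, ∃ (I : Type) (D : I → Set (V → Bool)), #I ≤ #V ∧
      (∀ i, FinOpen (D i) ∧ FinDense (D i)) ∧
      ∀ A : V → Bool, (∀ i, A ∈ D i) → (∀ z ∈ Zf n, A z = false) → (∀ z ∈ Pf n, A z = true) →
        Emb β {x | x ∈ g '' Set.Ico (β * (n : Ordinal.{0})) (β * ((n + 1 : ℕ) : Ordinal.{0})) ∧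
          x ∈ Keep F A}) :
    ∃ Z : Finset V, Linked G (Z : Set V) ∧ Con F (β * ω) g Z := by
  classical
  choose I D hI hD hE using hpc
  let Z : Finset V := (hlink.finite hG).toFinset
  have hZ : ∀ z, z ∈ Z ↔ ∀ᶠ n in (hyperfilter ℕ : Filter ℕ), z ∈ Zf n := by
    intro z; simp [Z]
  refine ⟨Z, ?_, ℕ ⊕ (Σ n, I n), fun i => Sum.elim
    (fun N => LimReq Z Zf Pf (Set.Ici N)) (fun p => D p.1 p.2) i, ?_, ?_, ?_⟩
  · have : (Z : Set V) = {z | ∀ᶠ n in (hyperfilter ℕ : Filter ℕ), z ∈ Zf n} := by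
      ext z; simp [Z]
    rw [this]; exact hlink
  · rw [Cardinal.mk_sum, Cardinal.lift_id, Cardinal.lift_id, Cardinal.mk_nat, Cardinal.mk_sigma]
    refine Cardinal.add_le_of_le hV hV ?_
    refine (Cardinal.sum_le_sum _ (fun _ => #V) hI).trans ?_
    rw [Cardinal.sum_const', Cardinal.mk_nat]
    exact Cardinal.mul_le_of_le hV hV le_rfl
  · rintro (N | ⟨n, i⟩)
    · refine ⟨limReq_open _ _ _ _, limReq_dense (hyperfilter ℕ) Z Zf Pf hdisj ?_
        (fun z hz => (hZ z).2 hz) _ ?_⟩
      · intro z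
        have : {n | z ∈ Pf n}ᶜ ∈ (hyperfilter ℕ : Filter ℕ) :=
          Filter.compl_mem_hyperfilter_of_finite (hP z)
        exact this
      · have : (Set.Ici N)ᶜ.Finite := by
          rw [Set.compl_Ici]; exact Set.finite_Iio N
        have h2 := Filter.compl_mem_hyperfilter_of_finite this
        rwa [compl_compl] at h2
    · exact hD n i
  · intro A hA hZA
    have hinf : ∀ N : ℕ, ∃ n, N ≤ n ∧ Emb β
        {x | x ∈ g '' Set.Ico (β * (n : Ordinal.{0})) (β * ((n + 1 : ℕ) : Ordinal.{0})) ∧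
          x ∈ Keep F A} := by
      intro N
      rcases hA (Sum.inl N) with ⟨z, hz, hz'⟩ | ⟨n, hn, h1, h2⟩
      · rw [hZA z hz] at hz'; exact absurd hz' (by simp)
      · exact ⟨n, hn, hE n A (fun i => hA (Sum.inr ⟨n, i⟩)) h1 h2⟩
    have hk : ∀ k N : ℕ, Emb (β * (k : Ordinal.{0}))
        {x | x ∈ g '' Set.Ico (β * (N : Ordinal.{0})) (β * ω) ∧ x ∈ Keep F A} := by
      intro k
      induction k with
      | zero =>
        intro N
        refine ⟨g, ?_, ?_⟩
        · intro x hx
          simp at hx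
        · intro x hx
          simp at hx
      | succ k ih =>
        intro N
        obtain ⟨n, hn, h1⟩ := hinf N
        have h2 := ih (n + 1)
        have h3 : β * ((k + 1 : ℕ) : Ordinal.{0}) = β + β * (k : Ordinal.{0}) := by
          rw [show ((k + 1 : ℕ) : Ordinal.{0}) = 1 + (k : Ordinal.{0}) by
            rw [Nat.add_comm, Nat.cast_add, Nat.cast_one], mul_add, mul_one]
        rw [h3]
        refine (h1.add h2 ?_).mono ?_
        · rintro _ ⟨⟨a, ha, rfl⟩, -⟩ _ ⟨⟨b, hb, rfl⟩, -⟩
          refine hg ?_ hb.2 (ha.2.trans_le hb.1)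
          exact (ha.2.trans_le hb.1).trans hb.2
        · rintro x (⟨⟨a, ha, rfl⟩, hx⟩ | ⟨⟨a, ha, rfl⟩, hx⟩)
          · refine ⟨⟨a, ⟨le_trans ?_ ha.1, ha.2.trans_le ?_⟩, rfl⟩, hx⟩
            · apply mul_le_mul_right
              exact_mod_cast hn
            · apply mul_le_mul_right
              exact (Ordinal.natCast_lt_omega0 _).le
          · refine ⟨⟨a, ⟨le_trans ?_ ha.1, ha.2⟩, rfl⟩, hx⟩
            apply mul_le_mul_right
            exact_mod_cast (by omega : N ≤ n + 1)
    apply emb_of_le_type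
    rw [Ordinal.mul_le_iff_of_isSuccLimit isSuccLimit_omega0]
    intro b hb
    obtain ⟨k, rfl⟩ := Ordinal.lt_omega0.1 hb
    refine ((hk k 0).mono ?_).le_type
    rintro x ⟨⟨a, ha, rfl⟩, hx⟩
    exact ⟨⟨a, ha.2, rfl⟩, hx⟩

/-- The number of ordinals below `β` is at most `|V|` if `β` is embedded in `V`. -/
theorem card_le {β : Ordinal.{0}} {g : Ordinal.{0} → V} (hg : StrictMonoOn g (Set.Iio β)) :
    #β.ToType ≤ #V := by
  refine Cardinal.mk_le_of_injective
    (f := fun x : β.ToType => g (ToType.mk.symm x : Set.Iio β).1) ?_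
  intro a b hab
  have h1 : ((ToType.mk.symm a : Set.Iio β) : Ordinal.{0}) = (ToType.mk.symm b : Set.Iio β) :=
    hg.injOn (ToType.mk.symm a : Set.Iio β).2 (ToType.mk.symm b : Set.Iio β).2 hab
  exact ToType.mk.symm.injective (Subtype.ext h1)

/-- The indecomposable case. -/
theorem good_opow {G : SimpleGraph V} (hG : NoRay G) {F : V → Finset V} (hV : ℵ₀ ≤ #V)
    (hF : ∀ x, ∀ y ∈ F x, G.Adj x y) (γ : Ordinal.{0}) (hγ : 1 ≤ γ) (g : Ordinal.{0} → V)
    (hg : StrictMonoOn g (Set.Iio (ω ^ γ))) :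
    ∃ Z : Finset V, Linked G (Z : Set V) ∧ Con F (ω ^ γ) g Z := by
  classical
  induction γ using WellFoundedLT.induction generalizing g with
  | _ γ IH =>
    rcases Ordinal.zero_or_succ_or_isSuccLimit γ with h0 | ⟨δ, rfl⟩ | hlim
    · subst h0; simp at hγ
    · -- successor
      rw [Ordinal.opow_succ] at hg ⊢
      rcases eq_or_ne δ 0 with h0 | h0
      · -- points
        subst h0
        rw [opow_zero] at hg ⊢
        have hinj : ∀ n m : ℕ, g n = g m → n = m := by
          intro n m h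
          have hn : ∀ k : ℕ, (k : Ordinal.{0}) ∈ Set.Iio (1 * ω) := by
            intro k; rw [one_mul]; exact Ordinal.natCast_lt_omega0 k
          exact_mod_cast hg.injOn (hn n) (hn m) h
        refine succ_step hV g hg (fun n => F (g n)) (fun n => {g n}) ?_ hG ?_ ?_ ?_
        · intro n
          rw [Finset.disjoint_singleton_right]
          intro h
          exact (hF _ _ h).ne rfl
        · intro z
          refine Set.Subsingleton.finite ?_
          intro n hn m hm
          simp only [Set.mem_ofPred_eq, Finset.mem_singleton] at hn hm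
          exact hinj n m (hn.symm.trans hm)
        · intro x hx y hy hxy
          have h1 : {n : ℕ | x ∈ F (g n) ∧ y ∈ F (g n)}.Infinite := by
            intro hfin
            have h2 := Filter.notMem_hyperfilter_of_finite hfin
            exact h2 (Filter.Eventually.and hx hy)
          refine (h1.image (f := fun n : ℕ => g n) (fun n _ m _ h => hinj n m h)).mono ?_
          rintro _ ⟨n, hn, rfl⟩
          exact ⟨(hF _ _ hn.1).symm, (hF _ _ hn.2).symm⟩
        · intro n
          refine ⟨Empty, fun i => i.elim, by simp, fun i => i.elim, ?_⟩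
          intro A _ h1 h2
          refine ⟨fun _ => g n, ?_, ?_⟩
          · intro x hx y hy hxy
            have hx' : x < 1 := hx
            have hy' : y < 1 := hy
            rw [Order.lt_one_iff] at hx' hy'
            subst hx'; subst hy'
            exact absurd hxy (lt_irrefl _)
          · intro x _
            refine ⟨⟨(n : Ordinal.{0}), ⟨?_, ?_⟩, rfl⟩, h2 _ (Finset.mem_singleton_self _), h1⟩
            · rw [one_mul]
            · rw [one_mul]; exact_mod_cast Nat.lt_succ_self n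
      · -- a successor of a nonzero ordinal
        have hδ1 : 1 ≤ δ := Order.one_le_iff_pos.2 (pos_iff_ne_zero.2 h0)
        have hpos : 0 < (ω ^ δ : Ordinal.{0}) := opow_pos _ omega0_pos
        have hlt : ∀ n : ℕ, ∀ x, x < ω ^ δ → ω ^ δ * (n : Ordinal.{0}) + x <
            ω ^ δ * ((n + 1 : ℕ) : Ordinal.{0}) := by
          intro n x hx
          rw [Nat.cast_add, Nat.cast_one, mul_add, mul_one]
          exact (add_lt_add_iff_left _).2 hx
        have hlt' : ∀ n : ℕ, ω ^ δ * (n : Ordinal.{0}) < ω ^ δ * ω := fun n =>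
          (mul_lt_mul_iff_right₀ hpos).2 (Ordinal.natCast_lt_omega0 n)
        have hpc : ∀ n : ℕ, ∃ Z : Finset V, Linked G (Z : Set V) ∧
            Con F (ω ^ δ) (fun x => g (ω ^ δ * (n : Ordinal.{0}) + x)) Z := by
          intro n
          refine IH δ (Order.lt_succ δ) hδ1 _ ?_
          intro x hx y hy hxy
          refine hg ((hlt n x hx).trans (hlt' _)) ((hlt n y hy).trans (hlt' _)) ?_
          exact (add_lt_add_iff_left _).2 hxy
        choose Zf hZf I D hI hD hE using hpc
        refine succ_step hV g hg Zf (fun _ => ∅) (fun n => Finset.disjoint_empty_right _) hG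
          (fun z => by simp) ?_ ?_
        · intro x hx y hy hxy
          obtain ⟨n, hn1, hn2⟩ := (Filter.Eventually.and hx hy).exists
          exact hZf n x hn1 y hn2 hxy
        · intro n
          refine ⟨I n, D n, hI n, hD n, fun A h1 h2 _ => ?_⟩
          refine (hE n A h1 h2).mono ?_
          rintro _ ⟨⟨a, ha, rfl⟩, hx⟩
          exact ⟨⟨_, ⟨le_self_add, hlt n a ha⟩, rfl⟩, hx⟩
    · -- limit
      let o : γ.ToType → Ordinal.{0} := fun x => (ToType.mk.symm x : Set.Iio γ).1
      have ho : ∀ x, o x < γ := fun x => (ToType.mk.symm x : Set.Iio γ).2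
      have hoo : ∀ {x y : γ.ToType}, o x ≤ o y ↔ x ≤ y := by
        intro x y
        simp only [o]
        rw [Subtype.coe_le_coe, OrderIso.le_iff_le]
      let J : Type := {x : γ.ToType // 1 ≤ o x}
      have hJ : ∀ δ, 1 ≤ δ → δ < γ → ∃ j : J, o j.1 = δ := by
        intro δ h1 h2
        have h3 : o (ToType.mk ⟨δ, h2⟩) = δ := by simp [o]
        exact ⟨⟨ToType.mk ⟨δ, h2⟩, by rw [h3]; exact h1⟩, h3⟩
      have h1γ : 1 < γ := by
        have h2 : (ω : Ordinal.{0}) ≤ γ := Ordinal.omega0_le_of_isSuccLimit hlim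
        exact Ordinal.one_lt_omega0.trans_le h2
      have hJne : Nonempty J := by
        obtain ⟨j, -⟩ := hJ 1 le_rfl h1γ
        exact ⟨j⟩
      have hopow : ∀ j : J, ∀ x, x < ω ^ (o j.1) → ω ^ (o j.1) + x < ω ^ γ := by
        intro j x hx
        have h1 : (ω ^ (o j.1) : Ordinal.{0}) < ω ^ γ :=
          (isNormal_opow one_lt_omega0).strictMono (ho j.1)
        exact Ordinal.isPrincipal_add_omega0_opow γ h1 (hx.trans h1)
      have hpc : ∀ j : J, ∃ Z : Finset V, Linked G (Z : Set V) ∧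
          Con F (ω ^ (o j.1)) (fun x => g (ω ^ (o j.1) + x)) Z := by
        intro j
        refine IH (o j.1) (ho j.1) j.2 _ ?_
        intro x hx y hy hxy
        refine hg (hopow j x hx) (hopow j y hy) ?_
        exact (add_lt_add_iff_left _).2 hxy
      choose Zf hZf I D hI hD hE using hpc
      let U : Ultrafilter J := Ultrafilter.of atTop
      have hU : (U : Filter J) ≤ atTop := Ultrafilter.of_le atTop
      have hlink : Linked G {z | ∀ᶠ j in (U : Filter J), z ∈ Zf j} := by
        intro x hx y hy hxy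
        obtain ⟨j, hj1, hj2⟩ := (Filter.Eventually.and hx hy).exists
        exact hZf j x hj1 y hj2 hxy
      let Z : Finset V := (hlink.finite hG).toFinset
      have hZ : ∀ z, z ∈ Z ↔ ∀ᶠ j in (U : Filter J), z ∈ Zf j := by
        intro z; simp [Z]
      have hcard : #J ≤ #V := by
        refine (Cardinal.mk_subtype_le _).trans ?_
        refine card_le (β := γ) (g := g) (hg.mono ?_)
        intro x hx
        exact lt_of_lt_of_le hx (Ordinal.right_le_opow γ one_lt_omega0)
      refine ⟨Z, ?_, J ⊕ (Σ j, I j), fun i => Sum.elim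
        (fun j => LimReq Z Zf (fun _ => ∅) (Set.Ici j)) (fun p => D p.1 p.2) i, ?_, ?_, ?_⟩
      · have : (Z : Set V) = {z | ∀ᶠ j in (U : Filter J), z ∈ Zf j} := by
          ext z; simp [Z]
        rw [this]; exact hlink
      · rw [Cardinal.mk_sum, Cardinal.lift_id, Cardinal.lift_id, Cardinal.mk_sigma]
        refine Cardinal.add_le_of_le hV hcard ?_
        refine (Cardinal.sum_le_sum _ (fun _ => #V) hI).trans ?_
        rw [Cardinal.sum_const']
        exact Cardinal.mul_le_of_le hV hcard le_rfl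
      · rintro (j | ⟨j, i⟩)
        · refine ⟨limReq_open _ _ _ _, limReq_dense U Z Zf (fun _ => ∅)
            (fun _ => Finset.disjoint_empty_right _) (fun z => by simp)
            (fun z hz => (hZ z).2 hz) _ (hU (Filter.Ici_mem_atTop j))⟩
        · exact hD j i
      · intro A hA hZA
        apply emb_of_le_type
        rw [Ordinal.opow_le_of_isSuccLimit omega0_ne_zero hlim]
        intro δ hδ
        obtain ⟨j, hj⟩ := hJ (max 1 δ) (le_max_left _ _) (max_lt h1γ hδ)
        rcases hA (Sum.inl j) with ⟨z, hz, hz'⟩ | ⟨k, hk, h1, -⟩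
        · rw [hZA z hz] at hz'; exact absurd hz' (by simp)
        · have h2 := hE k A (fun i => hA (Sum.inr ⟨k, i⟩)) h1
          have h3 : δ ≤ o k.1 := (le_max_right 1 δ).trans (hj.symm.le.trans (hoo.2 hk))
          refine (opow_le_opow_right omega0_pos h3).trans ?_
          refine (h2.mono ?_).le_type
          rintro _ ⟨⟨a, ha, rfl⟩, hx⟩
          exact ⟨⟨_, hopow k a ha, rfl⟩, hx⟩

/-- Sums. -/
theorem con_add {F : V → Finset V} (hV : ℵ₀ ≤ #V) {β₁ β₂ : Ordinal.{0}} {g : Ordinal.{0} → V}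
    (hg : StrictMonoOn g (Set.Iio (β₁ + β₂))) {Z₁ Z₂ : Finset V} (h₁ : Con F β₁ g Z₁)
    (h₂ : Con F β₂ (fun x => g (β₁ + x)) Z₂) [DecidableEq V] : Con F (β₁ + β₂) g (Z₁ ∪ Z₂) := by
  obtain ⟨I₁, D₁, a1, a2, a3⟩ := h₁
  obtain ⟨I₂, D₂, b1, b2, b3⟩ := h₂
  refine ⟨I₁ ⊕ I₂, fun i => Sum.elim D₁ D₂ i, ?_, ?_, ?_⟩
  · rw [Cardinal.mk_sum, Cardinal.lift_id, Cardinal.lift_id]
    exact Cardinal.add_le_of_le hV a1 b1
  · rintro (i | i)
    · exact a2 i
    · exact b2 i
  · intro A hA hZ
    have e1 := a3 A (fun i => hA (Sum.inl i)) (fun z hz => hZ z (Finset.mem_union_left _ hz))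
    have e2 := b3 A (fun i => hA (Sum.inr i)) (fun z hz => hZ z (Finset.mem_union_right _ hz))
    refine (e1.add e2 ?_).mono ?_
    · rintro _ ⟨⟨a, ha, rfl⟩, -⟩ _ ⟨⟨b, hb, rfl⟩, -⟩
      have ha' : a < β₁ := ha
      have hb' : b < β₂ := hb
      refine hg ?_ ?_ ?_
      · exact ha'.trans_le le_self_add
      · exact (add_lt_add_iff_left _).2 hb'
      · exact ha'.trans_le le_self_add
    · rintro x (⟨⟨a, ha, rfl⟩, hx⟩ | ⟨⟨b, hb, rfl⟩, hx⟩)
      · have ha' : a < β₁ := ha
        have h3 : a < β₁ + β₂ := ha'.trans_le le_self_add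
        exact ⟨⟨a, h3, rfl⟩, hx⟩
      · have hb' : b < β₂ := hb
        have h3 : β₁ + b < β₁ + β₂ := (add_lt_add_iff_left _).2 hb'
        exact ⟨⟨β₁ + b, h3, rfl⟩, hx⟩

/-- All limit ordinals. -/
theorem good_limit {G : SimpleGraph V} (hG : NoRay G) {F : V → Finset V} (hV : ℵ₀ ≤ #V)
    (hF : ∀ x, ∀ y ∈ F x, G.Adj x y) (β : Ordinal.{0}) (hβ : Order.IsSuccLimit β)
    (g : Ordinal.{0} → V) (hg : StrictMonoOn g (Set.Iio β)) : ∃ Z : Finset V, Con F β g Z := by
  classical
  induction β using WellFoundedLT.induction generalizing g with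
  | _ β IH =>
    have hβ0 : β ≠ 0 := hβ.ne_bot
    have hωβ : ω ≤ β := Ordinal.omega0_le_of_isSuccLimit hβ
    let γ := Ordinal.log ω β
    have h1 : ω ^ γ ≤ β := Ordinal.opow_log_le_self ω hβ0
    have h2 : β < ω ^ Order.succ γ := Ordinal.lt_opow_succ_log_self one_lt_omega0 β
    have hγ : 1 ≤ γ := by
      by_contra hcon
      rw [not_le, Order.lt_one_iff] at hcon
      rw [hcon, Ordinal.opow_succ, opow_zero, one_mul] at h2
      exact absurd hωβ (not_le.2 h2)
    let ρ := β - ω ^ γ
    have hρ : ω ^ γ + ρ = β := Ordinal.add_sub_cancel_of_le h1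
    have hρlt : ρ < β := by
      by_contra hcon
      rw [not_lt] at hcon
      have h3 : ω ^ γ + β ≤ β := by
        conv_rhs => rw [← hρ]
        exact add_le_add_right hcon _
      have h4 : ∀ n : ℕ, ω ^ γ * (n : Ordinal.{0}) + β ≤ β := by
        intro n
        induction n with
        | zero => simp
        | succ n ih =>
          have h5 : ω ^ γ * ((n + 1 : ℕ) : Ordinal.{0}) = ω ^ γ + ω ^ γ * (n : Ordinal.{0}) := by
            rw [show ((n + 1 : ℕ) : Ordinal.{0}) = 1 + (n : Ordinal.{0}) by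
              rw [Nat.add_comm, Nat.cast_add, Nat.cast_one], mul_add, mul_one]
          rw [h5, add_assoc]
          exact (add_le_add_right ih _).trans h3
      have h6 : ω ^ γ * ω ≤ β := by
        rw [Ordinal.mul_le_iff_of_isSuccLimit isSuccLimit_omega0]
        intro b hb
        obtain ⟨n, rfl⟩ := Ordinal.lt_omega0.1 hb
        exact le_self_add.trans (h4 n)
      rw [← Ordinal.opow_succ] at h6
      exact absurd h2 (not_lt.2 h6)
    obtain ⟨Z₁, -, hZ₁⟩ := good_opow hG hV hF γ hγ g (hg.mono (fun x hx => lt_of_lt_of_le hx h1))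
    rcases eq_or_ne ρ 0 with h0 | h0
    · rw [h0, add_zero] at hρ
      rw [← hρ]
      exact ⟨Z₁, hZ₁⟩
    · have hρlim : Order.IsSuccLimit ρ := by
        rcases Ordinal.zero_or_succ_or_isSuccLimit ρ with h3 | ⟨δ, h3⟩ | h3
        · exact absurd h3 h0
        · exfalso
          have h4 : Order.succ (ω ^ γ + δ) = β := by
            rw [← hρ, ← h3, Order.succ_eq_add_one, Order.succ_eq_add_one, add_assoc]
          rw [← h4] at hβ
          exact Order.not_isSuccLimit_succ _ hβ
        · exact h3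
      obtain ⟨Z₂, hZ₂⟩ := IH ρ hρlt hρlim (fun x => g (ω ^ γ + x)) (by
        intro x hx y hy hxy
        have hx' : x < ρ := hx
        have hy' : y < ρ := hy
        refine hg ?_ ?_ ((add_lt_add_iff_left _).2 hxy)
        · rw [← hρ]; exact (add_lt_add_iff_left _).2 hx'
        · rw [← hρ]; exact (add_lt_add_iff_left _).2 hy')
      rw [← hρ] at hg ⊢
      exact ⟨Z₁ ∪ Z₂, con_add hV hg hZ₁ hZ₂⟩

end good

/-- **Main theorem.** If the cube `2 ^ α` is not the union of `|α|` nowhere dense sets, then every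
graph without an infinite path on the limit ordinal `α` has an independent set of type `α`. -/
theorem main (α : Ordinal.{0}) (hα : Order.IsSuccLimit α) (hB : FinBaire α.ToType)
    (G : SimpleGraph α.ToType) (hG : NoRay G) :
    ∃ S : Set α.ToType, G.IsIndepSet S ∧ Ordinal.type (fun a b : S => a < b) = α := by
  classical
  have hα0 : 0 < α := hα.bot_lt
  have hne : Nonempty α.ToType := by
    rw [Ordinal.nonempty_toType_iff]; exact hα0.ne'
  have hωα : ω ≤ α := Ordinal.omega0_le_of_isSuccLimit hα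
  have hV : ℵ₀ ≤ #α.ToType := by
    rw [Cardinal.mk_toType, ← Ordinal.card_omega0]
    exact Ordinal.card_le_card hωα
  obtain ⟨F, hF1, hF2⟩ := orientation hG (Set.univ : Set α.ToType)
  let g : Ordinal.{0} → α.ToType := fun x =>
    if h : x < α then ToType.mk ⟨x, h⟩ else Classical.arbitrary _
  have hg : StrictMonoOn g (Set.Iio α) := by
    intro x hx y hy hxy
    have hx' : x < α := hx
    have hy' : y < α := hy
    simp only [g, dif_pos hx', dif_pos hy']
    rw [OrderIso.lt_iff_lt]
    exact hxy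
  obtain ⟨Z, I, D, hI, hD, hE⟩ := good_limit hG hV hF1 α hα g hg
  -- remove `Z`
  let cut : (α.ToType → Bool) → (α.ToType → Bool) := fun A x => if x ∈ Z then false else A x
  obtain ⟨A, hA⟩ := hB I (fun i => {A | cut A ∈ D i}) hI (by
    intro i
    constructor
    · intro A hA
      obtain ⟨E, hE⟩ := (hD i).1 _ hA
      refine ⟨E, fun A' hA' => hE _ ?_⟩
      intro x hx
      simp only [cut]
      split_ifs
      · rfl
      · exact hA' x hx
    · intro A E
      obtain ⟨A', hA', hAE⟩ := (hD i).2 (cut A) (E ∪ Z)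
      refine ⟨fun x => if x ∈ Z then A x else A' x, ?_, ?_⟩
      · have : cut (fun x => if x ∈ Z then A x else A' x) = A' := by
          funext x
          simp only [cut]
          split_ifs with h1
          · rw [hAE x (Finset.mem_union_right _ h1)]
            simp [cut, h1]
          · rfl
        change cut _ ∈ D i
        rw [this]
        exact hA'
      · intro x hx
        by_cases h1 : x ∈ Z
        · simp [h1]
        · simp only [if_neg h1]
          rw [hAE x (Finset.mem_union_left _ hx)]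
          simp [cut, h1])
  have hS := hE (cut A) hA (fun z hz => by simp [cut, hz])
  refine ⟨{x | x ∈ g '' Set.Iio α ∧ x ∈ Keep F (cut A)}, ?_, ?_⟩
  · rintro x ⟨-, hx⟩ y ⟨-, hy⟩ hxy hadj
    rcases hF2 x (Set.mem_univ _) y (Set.mem_univ _) hadj with h | h
    · have := hy.2 x h
      rw [hx.1] at this
      exact absurd this (by simp)
    · have := hx.2 y h
      rw [hy.1] at this
      exact absurd this (by simp)
  · refine le_antisymm ?_ hS.le_type
    conv_rhs => rw [← type_toType α]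
    rw [type_le_iff']
    exact ⟨⟨⟨Subtype.val, Subtype.val_injective⟩, Iff.rfl⟩⟩

end Pool.Agent.TH769.CohenPath
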