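import Mathlib

/-!
# The Erdős-Rado theorem for nonspecial trees

If `2 ^< κ = κ`, `κ` regular and `μ < κ`, then every tree that is not `κ`-special has, for every
colouring of its comparable pairs with `μ` colours, a homogeneous chain of type `κ + 1`.
-/

set_option autoImplicit false

namespace Pool.Agent.TH769.TreeER

open Cardinal Ordinal Set

universe u

section

variable {T : Type u} [PartialOrder T] {Λ : Type u}

/-- `M hwf c t s`: the element `s` belongs to the end-homogeneous set below `t`. -/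
def M (hwf : WellFounded ((· < ·) : T → T → Prop)) (c : T → T → Λ) (t : T) : T → Prop :=
  hwf.fix (fun s IH => s < t ∧ ∀ r (h : r < s), IH r h → c r s = c r t)

theorem M_iff (hwf : WellFounded ((· < ·) : T → T → Prop)) (c : T → T → Λ) (t s : T) :
    M hwf c t s ↔ s < t ∧ ∀ r, r < s → M hwf c t r → c r s = c r t := by
  conv_lhs => unfold M
  rw [hwf.fix_eq]
  rfl

/-- a tree order is well-founded -/
theorem tree_wf (hT : ∀ t : T, IsWellOrder (Set.Iio t) (· < ·)) :
    WellFounded ((· < ·) : T → T → Prop) := by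
  refine ⟨fun t => ⟨_, fun s hs => ?_⟩⟩
  have h1 : ∀ x : Set.Iio t, Acc ((· < ·) : T → T → Prop) x.1 := by
    intro x
    have hw : WellFounded ((· < ·) : Set.Iio t → Set.Iio t → Prop) := (hT t).wf
    induction x using hw.induction with
    | _ x ih =>
      refine ⟨_, fun y hy => ?_⟩
      exact ih ⟨y, lt_trans hy x.2⟩ hy
  exact h1 ⟨s, hs⟩

theorem comp_of_lt (hT : ∀ t : T, IsWellOrder (Set.Iio t) (· < ·)) {a b t : T} (ha : a < t)
    (hb : b < t) : a < b ∨ a = b ∨ b < a := by
  have := hT t
  rcases trichotomous_of ((· < ·) : Set.Iio t → Set.Iio t → Prop) ⟨a, ha⟩ ⟨b, hb⟩ with h | h | h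
  · exact Or.inl h
  · exact Or.inr (Or.inl (congrArg Subtype.val h))
  · exact Or.inr (Or.inr h)

/-- the end-homogeneous set as a type -/
abbrev EE (hwf : WellFounded ((· < ·) : T → T → Prop)) (c : T → T → Λ) (t : T) : Type u :=
  {s : T // M hwf c t s}

theorem EE_wo (hT : ∀ t : T, IsWellOrder (Set.Iio t) (· < ·))
    (hwf : WellFounded ((· < ·) : T → T → Prop)) (c : T → T → Λ) (t : T) :
    IsWellOrder (EE hwf c t) (· < ·) where
  wf := InvImage.wf (fun x : EE hwf c t => x.1) hwf
  trichotomous := by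
    intro a b h1 h2
    have ha : a.1 < t := ((M_iff hwf c t a.1).1 a.2).1
    have hb : b.1 < t := ((M_iff hwf c t b.1).1 b.2).1
    rcases comp_of_lt hT ha hb with h | h | h
    · exact absurd h h1
    · exact Subtype.ext h
    · exact absurd h h2

/-- The code of `t`. -/
noncomputable def code {K : Type u} (hwf : WellFounded ((· < ·) : T → T → Prop)) (c : T → T → Λ)
    (t : T) (f : EE hwf c t → K) : K → Option Λ := by
  classical
  exact fun k => if h : ∃ s : EE hwf c t, f s = k then some (c h.choose.1 t) else none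

theorem code_apply {K : Type u} (hwf : WellFounded ((· < ·) : T → T → Prop)) (c : T → T → Λ)
    (t : T) (f : EE hwf c t → K) (hf : Function.Injective f) (s : EE hwf c t) :
    code hwf c t f (f s) = some (c s.1 t) := by
  classical
  have h : ∃ s' : EE hwf c t, f s' = f s := ⟨s, rfl⟩
  have h2 : h.choose = s := hf h.choose_spec
  unfold code
  rw [dif_pos h]
  rw [h2]

theorem code_none {K : Type u} (hwf : WellFounded ((· < ·) : T → T → Prop)) (c : T → T → Λ)
    (t : T) (f : EE hwf c t → K) (k : K) (h : ¬ ∃ s : EE hwf c t, f s = k) :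
    code hwf c t f k = none := by
  classical
  unfold code
  rw [dif_neg h]

theorem code_some {K : Type u} (hwf : WellFounded ((· < ·) : T → T → Prop)) (c : T → T → Λ)
    (t : T) (f : EE hwf c t → K) (k : K) (h : code hwf c t f k ≠ none) :
    ∃ s : EE hwf c t, f s = k := by
  by_contra hcon
  exact h (code_none hwf c t f k hcon)

/-- Elements with the same code are incomparable. -/
theorem code_ne {K : Type u} [LinearOrder K] [WellFoundedLT K]
    (hT : ∀ t : T, IsWellOrder (Set.Iio t) (· < ·))
    (hwf : WellFounded ((· < ·) : T → T → Prop)) (c : T → T → Λ) {s t : T} (hst : s < t)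
    (fs : EE hwf c s → K) (ft : EE hwf c t → K) (hfs : StrictMono fs) (hft : StrictMono ft)
    (heq : code hwf c s fs = code hwf c t ft) : False := by
  have := EE_wo hT hwf c s
  have := EE_wo hT hwf c t
  have inj_s : Function.Injective fs := by
    intro a b hab
    rcases trichotomous_of ((· < ·) : EE hwf c s → EE hwf c s → Prop) a b with h | h | h
    · exact absurd hab (hfs h).ne
    · exact h
    · exact absurd hab.symm (hfs h).ne
  have inj_t : Function.Injective ft := by
    intro a b hab
    rcases trichotomous_of ((· < ·) : EE hwf c t → EE hwf c t → Prop) a b with h | h | h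
    · exact absurd hab (hft h).ne
    · exact h
    · exact absurd hab.symm (hft h).ne
  -- transfer of elements
  have ts : ∀ a : EE hwf c s, ∃ b : EE hwf c t, ft b = fs a ∧ c b.1 t = c a.1 s := by
    intro a
    have h1 := code_apply hwf c s fs inj_s a
    rw [heq] at h1
    obtain ⟨b, hb⟩ := code_some hwf c t ft (fs a) (by rw [h1]; exact Option.some_ne_none _)
    refine ⟨b, hb, ?_⟩
    rw [← hb, code_apply hwf c t ft inj_t b] at h1
    exact Option.some_injective _ h1
  have st : ∀ b : EE hwf c t, ∃ a : EE hwf c s, fs a = ft b ∧ c b.1 t = c a.1 s := by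
    intro b
    have h1 := code_apply hwf c t ft inj_t b
    rw [← heq] at h1
    obtain ⟨a, ha⟩ := code_some hwf c s fs (ft b) (by rw [h1]; exact Option.some_ne_none _)
    refine ⟨a, ha, ?_⟩
    rw [← ha, code_apply hwf c s fs inj_s a] at h1
    exact (Option.some_injective _ h1).symm
  have key : ∀ k : K, ∀ a : EE hwf c s, ∀ b : EE hwf c t, fs a = k → ft b = k → a.1 = b.1 := by
    intro k
    induction k using WellFoundedLT.induction with
    | _ k ih =>
      intro a b ha hb
      have hat : a.1 < s := ((M_iff hwf c s a.1).1 a.2).1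
      have hbt : b.1 < t := ((M_iff hwf c t b.1).1 b.2).1
      rcases comp_of_lt hT (hat.trans hst) hbt with h | h | h
      · exfalso
        have hM : M hwf c t a.1 := by
          rw [M_iff]
          refine ⟨hat.trans hst, fun r hr hMr => ?_⟩
          obtain ⟨a', ha', hc'⟩ := st ⟨r, hMr⟩
          have hlt : ft ⟨r, hMr⟩ < k := by
            rw [← hb]; exact hft (show r < b.1 from hr.trans h)
          have e1 : a'.1 = r := ih _ hlt a' ⟨r, hMr⟩ ha' rfl
          have e2 : c a'.1 a.1 = c a'.1 s :=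
            ((M_iff hwf c s a.1).1 a.2).2 a'.1 (by rw [e1]; exact hr) a'.2
          rw [e1] at e2
          rw [e2]
          have e3 : c r t = c a'.1 s := hc'
          rw [e3, e1]
        have hlt : ft ⟨a.1, hM⟩ < k := by
          rw [← hb]; exact hft (show a.1 < b.1 from h)
        obtain ⟨a'', ha'', -⟩ := st ⟨a.1, hM⟩
        have e1 : a''.1 = a.1 := ih _ hlt a'' ⟨a.1, hM⟩ ha'' rfl
        have e2 : a'' = a := Subtype.ext e1
        rw [e2, ha] at ha''
        exact absurd ha'' hlt.ne'
      · exact h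
      · exfalso
        have hM : M hwf c s b.1 := by
          rw [M_iff]
          refine ⟨h.trans hat, fun r hr hMr => ?_⟩
          obtain ⟨b', hb', hc'⟩ := ts ⟨r, hMr⟩
          have hlt : fs ⟨r, hMr⟩ < k := by
            rw [← ha]; exact hfs (show r < a.1 from hr.trans h)
          have e1 : r = b'.1 := ih _ hlt ⟨r, hMr⟩ b' rfl hb'
          have e2 : c b'.1 b.1 = c b'.1 t :=
            ((M_iff hwf c t b.1).1 b.2).2 b'.1 (by rw [← e1]; exact hr) b'.2
          rw [hc', ← e1] at e2
          exact e2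
        have hlt : fs ⟨b.1, hM⟩ < k := by
          rw [← ha]; exact hfs (show b.1 < a.1 from h)
        obtain ⟨b'', hb'', -⟩ := ts ⟨b.1, hM⟩
        have e1 : b.1 = b''.1 := ih _ hlt ⟨b.1, hM⟩ b'' rfl hb''
        have e2 : b'' = b := Subtype.ext e1.symm
        rw [e2, hb] at hb''
        exact absurd hb'' hlt.ne'
  have hMs : M hwf c t s := by
    rw [M_iff]
    refine ⟨hst, fun r hr hMr => ?_⟩
    obtain ⟨a, ha, hc'⟩ := st ⟨r, hMr⟩
    have e1 : a.1 = r := key _ a ⟨r, hMr⟩ ha rfl
    have e3 : c r t = c a.1 s := hc'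
    rw [e3, e1]
  obtain ⟨a, ha, -⟩ := st ⟨s, hMs⟩
  have e1 : a.1 = s := key _ a ⟨s, hMs⟩ ha rfl
  have h2 : a.1 < s := ((M_iff hwf c s a.1).1 a.2).1
  rw [e1] at h2
  exact lt_irrefl _ h2

end

theorem power_le_of_powerlt {κ : Cardinal.{u}} (h0 : ℵ₀ ≤ κ) (hp : (2 : Cardinal.{u}) ^< κ = κ)
    {a b : Cardinal.{u}} (ha : a < κ) (hb : b < κ) : a ^ b ≤ κ := by
  have h1 : a ^ b ≤ (2 ^ a) ^ b := Cardinal.power_le_power_right (cantor a).le
  rw [← Cardinal.power_mul] at h1
  refine h1.trans ?_
  calc (2 : Cardinal.{u}) ^ (a * b) ≤ 2 ^< κ := le_powerlt 2 (mul_lt_of_lt h0 ha hb)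
    _ = κ := hp

/-- The number of codes. -/
theorem mk_codes {κ : Cardinal.{u}} (h0 : ℵ₀ ≤ κ) (hp : (2 : Cardinal.{u}) ^< κ = κ)
    {Λ : Type u} (hΛ : #Λ < κ) :
    #{F : κ.ord.ToType → Option Λ | ∃ b, ∀ k, b ≤ k → F k = none} ≤ κ := by
  have h1 : ∀ b : κ.ord.ToType, Nonempty ((Set.Iio b → Option Λ) ↪ κ.out) := by
    intro b
    rw [← Cardinal.le_def, mk_out]
    have e1 : #(Set.Iio b → Option Λ) = #(Option Λ) ^ #(Set.Iio b) := by simp
    rw [e1]
    refine power_le_of_powerlt h0 hp ?_ ?_
    · rw [mk_option]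
      exact add_lt_of_lt h0 hΛ (one_lt_aleph0.trans_le h0)
    · have := mk_Iio_lt b (by simp)
      rwa [mk_ord_toType] at this
  let g : {F : κ.ord.ToType → Option Λ | ∃ b, ∀ k, b ≤ k → F k = none} → κ.ord.ToType × κ.out :=
    fun F => ⟨F.2.choose, (h1 F.2.choose).some (fun k => F.1 k.1)⟩
  have hg : Function.Injective g := by
    rintro ⟨F, hF⟩ ⟨G, hG⟩ h
    have e1 : hF.choose = hG.choose := congrArg Prod.fst h
    have e2 : (h1 hF.choose).some (fun k => F k.1) = (h1 hG.choose).some (fun k => G k.1) :=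
      congrArg Prod.snd h
    apply Subtype.ext
    show F = G
    have hFs := hF.choose_spec
    have hGs := hG.choose_spec
    generalize hF.choose = b at *
    generalize hG.choose = b' at *
    subst e1
    have e3 := (h1 b).some.injective e2
    funext k
    by_cases hk : k < b
    · exact congrFun e3 ⟨k, hk⟩
    · rw [hFs k (not_lt.1 hk), hGs k (not_lt.1 hk)]
  have h2 := Cardinal.mk_le_of_injective hg
  rw [Cardinal.mk_prod, Cardinal.lift_id, Cardinal.lift_id, mk_ord_toType, mk_out,
    Cardinal.mul_eq_self h0] at h2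
  exact h2

/-- A set of full size in the initial ordinal contains an increasing copy of it. -/
theorem exists_strictMono_of_card {κ : Cardinal.{u}} (S : Set κ.ord.ToType) (hS : κ ≤ #S) :
    ∃ φ : κ.ord.ToType → κ.ord.ToType, StrictMono φ ∧ ∀ k, φ k ∈ S := by
  have h1 : κ.ord ≤ Ordinal.type ((· < ·) : S → S → Prop) := by
    rw [Cardinal.ord_le, Ordinal.card_type]
    exact hS
  have h2 : Ordinal.type ((· < ·) : κ.ord.ToType → κ.ord.ToType → Prop) ≤
      Ordinal.type ((· < ·) : S → S → Prop) := by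
    rw [Ordinal.type_toType]; exact h1
  obtain ⟨f⟩ := Ordinal.type_le_iff'.1 h2
  exact ⟨fun k => (f k).1, fun a b hab => f.map_rel_iff.2 hab, fun k => (f k).2⟩

/-- **Erdős-Rado for trees.** -/
theorem erdos_rado {κ : Cardinal.{u}} (hκ : κ.IsRegular) (hp : (2 : Cardinal.{u}) ^< κ = κ)
    {T : Type u} [PartialOrder T] (hT : ∀ t : T, IsWellOrder (Set.Iio t) (· < ·))
    (hns : ¬ ∃ f : T → κ.out, ∀ x y : T, x < y → f x ≠ f y) {Λ : Type u} (hΛ : #Λ < κ)
    (c : T → T → Λ) :
    ∃ (x : κ.ord.ToType → T) (t : T) (v : Λ), StrictMono x ∧ (∀ k, x k < t) ∧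
      (∀ i j, i < j → c (x i) (x j) = v) ∧ ∀ i, c (x i) t = v := by
  classical
  have h0 := hκ.aleph0_le
  have hwf := tree_wf hT
  have hwo := fun t => EE_wo hT hwf c t
  by_cases hlong : ∃ t : T, κ.ord ≤ Ordinal.type ((· < ·) : EE hwf c t → EE hwf c t → Prop)
  · obtain ⟨t, ht⟩ := hlong
    have h2 : Ordinal.type ((· < ·) : κ.ord.ToType → κ.ord.ToType → Prop) ≤
        Ordinal.type ((· < ·) : EE hwf c t → EE hwf c t → Prop) := by
      rw [Ordinal.type_toType]; exact ht
    obtain ⟨f⟩ := Ordinal.type_le_iff'.1 h2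
    have hf : ∀ i j, i < j → (f i).1 < (f j).1 := fun i j hij => f.map_rel_iff.2 hij
    have hM := fun j => (M_iff hwf c t (f j).1).1 (f j).2
    obtain ⟨v, hv⟩ := Cardinal.infinite_pigeonhole_card (fun k => c (f k).1 t) κ
      (by rw [mk_ord_toType]) h0 (by rw [hκ.cof_ord]; exact hΛ)
    obtain ⟨φ, hφ, hφS⟩ := exists_strictMono_of_card _ hv
    refine ⟨fun k => (f (φ k)).1, t, v, fun a b hab => hf _ _ (hφ hab), fun k => (hM _).1, ?_, ?_⟩
    · intro i j hij
      have h3 := (hM (φ j)).2 (f (φ i)).1 (hf _ _ (hφ hij)) (f (φ i)).2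
      rw [h3]
      exact hφS i
    · intro i
      exact hφS i
  · exfalso
    apply hns
    push Not at hlong
    have hseg : ∀ t : T, Nonempty (PrincipalSeg ((· < ·) : EE hwf c t → EE hwf c t → Prop)
        ((· < ·) : κ.ord.ToType → κ.ord.ToType → Prop)) := by
      intro t
      apply Ordinal.type_lt_iff.1
      rw [Ordinal.type_toType]
      exact hlong t
    let f : ∀ t : T, PrincipalSeg ((· < ·) : EE hwf c t → EE hwf c t → Prop)
        ((· < ·) : κ.ord.ToType → κ.ord.ToType → Prop) := fun t => (hseg t).some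
    have hfm : ∀ t, StrictMono (fun s => f t s) := by
      intro t a b hab
      exact (f t).map_rel_iff.2 hab
    have hmem : ∀ t : T, code hwf c t (fun s => f t s) ∈
        {F : κ.ord.ToType → Option Λ | ∃ b, ∀ k, b ≤ k → F k = none} := by
      intro t
      refine ⟨(f t).top, fun k hk => code_none _ _ _ _ _ ?_⟩
      rintro ⟨s, hs⟩
      have := (f t).lt_top s
      rw [show f t s = k from hs] at this
      exact absurd this (not_lt.2 hk)
    have hcard := mk_codes h0 hp hΛ
    have : Nonempty ({F : κ.ord.ToType → Option Λ | ∃ b, ∀ k, b ≤ k → F k = none} ↪ κ.out) := by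
      rw [← Cardinal.le_def, mk_out]
      exact hcard
    obtain ⟨e⟩ := this
    refine ⟨fun t => e ⟨code hwf c t (fun s => f t s), hmem t⟩, ?_⟩
    intro s t hst heq
    have h5 := congrArg Subtype.val (e.injective heq)
    exact code_ne hT hwf c hst _ _ (hfm s) (hfm t) h5

end Pool.Agent.TH769.TreeER
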