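import Mathlib

/-!
# Weakly compact cardinals are regular strong limit cardinals
-/

set_option autoImplicit false

namespace Pool.Agent.TH769.WC

open Cardinal Ordinal Set

universe u

/-- the partition relation `κ → (κ)²₂` -/
def Ram (κ : Cardinal.{u}) : Prop :=
  ∀ (X : Type u), #X = κ → ∀ c : X → X → Fin 2, (∀ x y : X, c x y = c y x) →
    ∃ H : Set X, #H = κ ∧ ∃ i : Fin 2, ∀ x : X, x ∈ H → ∀ y : X, y ∈ H → x ≠ y → c x y = i

/-- version with a decidable relation -/
theorem Ram.rel {κ : Cardinal.{u}} (h : Ram κ) {X : Type u} (hX : #X = κ) (R : X → X → Prop)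
    (hR : ∀ x y, R x y ↔ R y x) :
    ∃ H : Set X, #H = κ ∧ ((∀ x ∈ H, ∀ y ∈ H, x ≠ y → R x y) ∨
      (∀ x ∈ H, ∀ y ∈ H, x ≠ y → ¬ R x y)) := by
  classical
  obtain ⟨H, hH, i, hi⟩ := h X hX (fun x y => if R x y then 1 else 0) (by
    intro x y
    simp only [hR x y])
  refine ⟨H, hH, ?_⟩
  have h2 : i = 0 ∨ i = 1 := by omega
  rcases h2 with rfl | rfl
  · right
    intro x hx y hy hxy hc
    have := hi x hx y hy hxy
    simp [hc] at this
  · left
    intro x hx y hy hxy
    have := hi x hx y hy hxy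
    by_contra hc
    simp [hc] at this

theorem Ram.regular {κ : Cardinal.{u}} (h0 : ℵ₀ < κ) (h : Ram κ) : κ.IsRegular := by
  classical
  refine ⟨h0.le, ?_⟩
  by_contra hcon
  rw [not_le] at hcon
  -- a small cofinal set
  obtain ⟨C, hC, hCc⟩ := Order.exists_cof_eq κ.ord.ToType
  have hCκ : #C < κ := by
    rw [hCc, Ordinal.cof_toType]
    exact hcon
  choose f hf using hC
  have hmin : ∀ x : κ.ord.ToType, ∃ b, b ∈ C ∧ x ≤ b := fun x => ⟨f x, (hf x).1, (hf x).2⟩
  choose g hg using hmin
  obtain ⟨H, hH, hH2⟩ := h.rel (mk_ord_toType κ) (fun x y => g x = g y) (fun x y => eq_comm)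
  rcases hH2 with hH2 | hH2
  · -- all in one block
    have hne : H.Nonempty := by
      rw [Set.nonempty_iff_ne_empty]
      rintro rfl
      rw [mk_eq_zero] at hH
      rw [← hH] at h0
      exact absurd h0 (not_lt.2 (zero_le))
    obtain ⟨a, ha⟩ := hne
    have hsub : H ⊆ Set.Iic (g a) := by
      intro x hx
      by_cases hxa : x = a
      · rw [hxa]; exact (hg a).2
      · rw [← hH2 x hx a ha hxa]; exact (hg x).2
    have h3 : #(Set.Iic (g a)) < κ := by
      have := Cardinal.noMaxOrder h0.le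
      obtain ⟨b, hb⟩ := exists_gt (g a)
      have h4 := mk_Iio_lt b (by simp)
      rw [mk_ord_toType] at h4
      exact (mk_le_mk_of_subset (fun x hx => lt_of_le_of_lt hx hb)).trans_lt h4
    have h5 := mk_le_mk_of_subset hsub
    rw [hH] at h5
    exact absurd h3 (not_lt.2 h5)
  · have hinj : Function.Injective (fun x : H => (⟨g x.1, (hg x.1).1⟩ : C)) := by
      intro x y hxy
      by_contra hne
      exact hH2 x.1 x.2 y.1 y.2 (fun h' => hne (Subtype.ext h')) (congrArg Subtype.val hxy)
    have h5 := Cardinal.mk_le_of_injective hinj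
    rw [hH] at h5
    exact absurd hCκ (not_lt.2 h5)

/-- the core of Sierpinski's argument: no strictly monotone sequences -/
theorem no_mono {κ ν : Cardinal.{u}} (h0 : ℵ₀ < κ) (hreg : κ.IsRegular) (hν : ν < κ)
    (hmin : ∀ ρ, ρ < ν → (2 : Cardinal.{u}) ^ ρ < κ)
    (r : κ.ord.ToType → (ν.ord.ToType → Bool)) (H : Set κ.ord.ToType) (hH : #H = κ)
    (v : Bool)
    (hm : ∀ x ∈ H, ∀ y ∈ H, x < y → ∃ n, (∀ m, m < n → r x m = r y m) ∧ r x n = v ∧ r y n = !v) :
    False := by
  classical
  have hnomax : ∀ x : κ.ord.ToType, ∃ y ∈ H, x < y := by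
    intro x
    by_contra hcon
    push Not at hcon
    have h3 : #(Set.Iic x) < κ := by
      have := Cardinal.noMaxOrder h0.le
      obtain ⟨b, hb⟩ := exists_gt x
      have h4 := mk_Iio_lt b (by simp)
      rw [mk_ord_toType] at h4
      exact (mk_le_mk_of_subset (fun x hx => lt_of_le_of_lt hx hb)).trans_lt h4
    have h5 := mk_le_mk_of_subset (s := H) (t := Set.Iic x) (fun y hy => hcon y hy)
    rw [hH] at h5
    exact absurd h3 (not_lt.2 h5)
  -- the successor
  have hsucc : ∀ x : κ.ord.ToType, ∃ y ∈ H, x < y ∧ ∀ z ∈ H, x < z → y ≤ z := by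
    intro x
    obtain ⟨y, hy, hxy⟩ := hnomax x
    have hne : {y | y ∈ H ∧ x < y}.Nonempty := ⟨y, hy, hxy⟩
    refine ⟨wellFounded_lt.min _ hne, (wellFounded_lt.min_mem _ hne).1,
      (wellFounded_lt.min_mem _ hne).2, fun z hz hxz => ?_⟩
    exact not_lt.1 (wellFounded_lt.not_lt_min {y | y ∈ H ∧ x < y} (⟨hz, hxz⟩ : z ∈ {y | y ∈ H ∧ x < y}))
  choose S hSH hS1 hS2 using hsucc
  have hn : ∀ x : H, ∃ n, (∀ m, m < n → r x.1 m = r (S x.1) m) ∧ r x.1 n = v ∧ r (S x.1) n = !v :=
    fun x => hm x.1 x.2 (S x.1) (hSH x.1) (hS1 x.1)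
  choose n hn1 hn2 hn3 using hn
  obtain ⟨b, hb⟩ := Cardinal.infinite_pigeonhole_card n κ (by rw [hH]) h0.le
    (by rw [hreg.cof_ord, mk_ord_toType]; exact hν)
  -- the restrictions below b are different
  have hinj : Function.Injective (fun x : n ⁻¹' {b} => (fun m : Set.Iio b => r x.1.1 m.1)) := by
    have key : ∀ x y : n ⁻¹' {b}, x.1.1 < y.1.1 →
        (fun m : Set.Iio b => r x.1.1 m.1) ≠ (fun m : Set.Iio b => r y.1.1 m.1) := by
      intro x y hxy heq
      have hxb : n x.1 = b := x.2
      have hyb : n y.1 = b := y.2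
      have h1 : ∀ m, m < b → r (S x.1.1) m = r y.1.1 m := by
        intro m hmb
        rw [← hn1 x.1 m (by rw [hxb]; exact hmb)]
        exact congrFun heq ⟨m, hmb⟩
      have h2 : r (S x.1.1) b = !v := by have h9 := hn3 x.1; rw [hxb] at h9; exact h9
      have h3 : r y.1.1 b = v := by have h9 := hn2 y.1; rw [hyb] at h9; exact h9
      have hle := hS2 x.1.1 y.1.1 y.1.2 hxy
      rcases hle.lt_or_eq with hlt | he
      · obtain ⟨k, hk1, hk2, hk3⟩ := hm _ (hSH x.1.1) _ y.1.2 hlt
        rcases lt_trichotomy k b with hkb | hkb | hkb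
        · have := h1 k hkb
          rw [hk2, hk3] at this
          revert this; cases v <;> simp
        · rw [hkb, h2] at hk2
          revert hk2; cases v <;> simp
        · have := hk1 b hkb
          rw [h2, h3] at this
          revert this; cases v <;> simp
      · rw [he, h3] at h2
        revert h2; cases v <;> simp
    intro x y hxy
    rcases lt_trichotomy x.1.1 y.1.1 with h | h | h
    · exact absurd hxy (key x y h)
    · exact Subtype.ext (Subtype.ext h)
    · exact absurd hxy.symm (key y x h)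
  have h6 := Cardinal.mk_le_of_injective hinj
  have h7 : #(Set.Iio b → Bool) = 2 ^ #(Set.Iio b) := by simp
  rw [h7] at h6
  have h8 : #(Set.Iio b) < ν := by
    have := mk_Iio_lt b (by simp)
    rwa [mk_ord_toType] at this
  exact absurd (hmin _ h8) (not_lt.2 (hb.trans h6))

theorem Ram.two_power_lt {κ : Cardinal.{u}} (h0 : ℵ₀ < κ) (h : Ram κ) {ν : Cardinal.{u}}
    (hν : ν < κ) : (2 : Cardinal.{u}) ^ ν < κ := by
  classical
  have hreg := h.regular h0
  induction ν using WellFoundedLT.induction with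
  | _ ν ih =>
    by_contra hcon
    rw [not_lt] at hcon
    have hmin : ∀ ρ, ρ < ν → (2 : Cardinal.{u}) ^ ρ < κ := fun ρ hρ => ih ρ hρ (hρ.trans hν)
    have h1 : #(κ.ord.ToType) ≤ #(ν.ord.ToType → Bool) := by
      rw [mk_ord_toType]
      simpa using hcon
    obtain ⟨r⟩ := Cardinal.le_def _ _ |>.1 h1
    have hdiff : ∀ x y : κ.ord.ToType, x ≠ y →
        ∃ n, (∀ m, m < n → r x m = r y m) ∧ r x n ≠ r y n := by
      intro x y hxy
      have hne : {n | r x n ≠ r y n}.Nonempty := by
        by_contra hemp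
        rw [Set.not_nonempty_iff_eq_empty] at hemp
        apply hxy
        apply r.injective
        funext n
        by_contra hcon'
        have : n ∈ {n | r x n ≠ r y n} := hcon'
        rw [hemp] at this
        exact this
      refine ⟨wellFounded_lt.min _ hne, fun m hm => ?_, wellFounded_lt.min_mem _ hne⟩
      by_contra hcon'
      exact wellFounded_lt.not_lt_min {n | r x n ≠ r y n} (hcon' : m ∈ {n | r x n ≠ r y n}) hm
    -- the Sierpinski relation
    let L : κ.ord.ToType → κ.ord.ToType → Prop := fun x y =>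
      ∃ n, (∀ m, m < n → r x m = r y m) ∧ r x n = false ∧ r y n = true
    have hL : ∀ x y, x ≠ y → (L x y ∨ L y x) := by
      intro x y hxy
      obtain ⟨n, hn1, hn2⟩ := hdiff x y hxy
      cases hx : r x n with
      | false =>
        left
        refine ⟨n, hn1, hx, ?_⟩
        rw [hx] at hn2
        revert hn2; cases r y n <;> simp
      | true =>
        right
        refine ⟨n, fun m hm => (hn1 m hm).symm, ?_, hx⟩
        rw [hx] at hn2
        revert hn2; cases r y n <;> simp
    obtain ⟨H, hH, hH2⟩ := h.rel (mk_ord_toType κ)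
      (fun x y => (x < y ∧ L x y) ∨ (y < x ∧ L y x)) (fun x y => or_comm)
    rcases hH2 with hH2 | hH2
    · refine no_mono h0 hreg hν hmin r H hH false ?_
      intro x hx y hy hxy
      rcases hH2 x hx y hy hxy.ne with ⟨_, h2⟩ | ⟨h2, _⟩
      · exact h2
      · exact absurd hxy h2.asymm
    · refine no_mono h0 hreg hν hmin r H hH true ?_
      intro x hx y hy hxy
      have h3 := hH2 x hx y hy hxy.ne
      rcases hL x y hxy.ne with h4 | ⟨n, h5, h6, h7⟩
      · exact absurd (Or.inl ⟨hxy, h4⟩) h3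
      · exact ⟨n, fun m hm => (h5 m hm).symm, h7, h6⟩

theorem Ram.powerlt {κ : Cardinal.{u}} (h0 : ℵ₀ < κ) (h : Ram κ) :
    (2 : Cardinal.{u}) ^< κ = κ := by
  apply le_antisymm
  · rw [powerlt_le]
    intro ν hν
    exact (h.two_power_lt h0 hν).le
  · by_contra hcon
    rw [not_le] at hcon
    exact absurd (le_powerlt (2 : Cardinal.{u}) hcon) (not_le.2 (cantor _))

end Pool.Agent.TH769.WC
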