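import Mathlib
import Pool.Agent.TH769.TreeER

/-!
# The Erdős-Rado theorem for nonspecial trees, general form

For regular `κ` and `μ < κ`: every tree that is not `(2 ^< κ)`-special has, for every
colouring of its comparable pairs with `μ` colours, a homogeneous chain of type `κ + 1`.
-/

set_option autoImplicit false

namespace Pool.Agent.TH769.TreeER2

open Cardinal Ordinal Set Pool.Agent.TH769.TreeER

universe u

theorem le_powerlt_self (κ : Cardinal.{u}) : κ ≤ (2 : Cardinal.{u}) ^< κ := by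
  by_contra hcon
  rw [not_le] at hcon
  exact absurd (le_powerlt (2 : Cardinal.{u}) hcon) (not_le.2 (cantor _))

theorem power_le_powerlt {κ : Cardinal.{u}} (h0 : ℵ₀ ≤ κ)
    {a b : Cardinal.{u}} (ha : a < κ) (hb : b < κ) : a ^ b ≤ (2 : Cardinal.{u}) ^< κ := by
  have h1 : a ^ b ≤ (2 ^ a) ^ b := Cardinal.power_le_power_right (cantor a).le
  rw [← Cardinal.power_mul] at h1
  exact h1.trans (le_powerlt 2 (mul_lt_of_lt h0 ha hb))

/-- The number of codes. -/
theorem mk_codes {κ : Cardinal.{u}} (h0 : ℵ₀ ≤ κ) {Λ : Type u} (hΛ : #Λ < κ) :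
    #{F : κ.ord.ToType → Option Λ | ∃ b, ∀ k, b ≤ k → F k = none} ≤ (2 : Cardinal.{u}) ^< κ := by
  have h1 : ∀ b : κ.ord.ToType,
      Nonempty ((Set.Iio b → Option Λ) ↪ ((2 : Cardinal.{u}) ^< κ).out) := by
    intro b
    rw [← Cardinal.le_def, mk_out]
    have e1 : #(Set.Iio b → Option Λ) = #(Option Λ) ^ #(Set.Iio b) := by simp
    rw [e1]
    refine power_le_powerlt h0 ?_ ?_
    · rw [mk_option]
      exact add_lt_of_lt h0 hΛ (one_lt_aleph0.trans_le h0)
    · have := mk_Iio_lt b (by simp)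
      rwa [mk_ord_toType] at this
  let g : {F : κ.ord.ToType → Option Λ | ∃ b, ∀ k, b ≤ k → F k = none} →
      κ.ord.ToType × ((2 : Cardinal.{u}) ^< κ).out :=
    fun F => ⟨F.2.choose, (h1 F.2.choose).some (fun k => F.1 k.1)⟩
  have hg : Function.Injective g := by
    rintro ⟨F, hF⟩ ⟨G, hG⟩ h
    have e1 : hF.choose = hG.choose := congrArg Prod.fst h
    have e2 : (h1 hF.choose).some (fun k => F k.1) = (h1 hG.choose).some (fun k => G k.1) :=
      congrArg Prod.snd h
    apply Subtype.ext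
    show F = G
    have hFs := hF.choose_spec
    have hGs := hG.choose_spec
    generalize hF.choose = b at *
    generalize hG.choose = b' at *
    subst e1
    have e3 := (h1 b).some.injective e2
    funext k
    by_cases hk : k < b
    · exact congrFun e3 ⟨k, hk⟩
    · rw [hFs k (not_lt.1 hk), hGs k (not_lt.1 hk)]
  have h2 := Cardinal.mk_le_of_injective hg
  have h3 : ℵ₀ ≤ (2 : Cardinal.{u}) ^< κ := h0.trans (le_powerlt_self κ)
  rw [Cardinal.mk_prod, Cardinal.lift_id, Cardinal.lift_id, mk_ord_toType, mk_out] at h2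
  refine h2.trans ?_
  calc κ * (2 : Cardinal.{u}) ^< κ ≤ (2 : Cardinal.{u}) ^< κ * (2 : Cardinal.{u}) ^< κ := by
        gcongr
        exact le_powerlt_self κ
    _ = (2 : Cardinal.{u}) ^< κ := Cardinal.mul_eq_self h3

/-- **Erdős-Rado for trees.** -/
theorem erdos_rado {κ : Cardinal.{u}} (hκ : κ.IsRegular)
    {T : Type u} [PartialOrder T] (hT : ∀ t : T, IsWellOrder (Set.Iio t) (· < ·))
    (hns : ¬ ∃ f : T → ((2 : Cardinal.{u}) ^< κ).out, ∀ x y : T, x < y → f x ≠ f y)
    {Λ : Type u} (hΛ : #Λ < κ) (c : T → T → Λ) :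
    ∃ (x : κ.ord.ToType → T) (t : T) (v : Λ), StrictMono x ∧ (∀ k, x k < t) ∧
      (∀ i j, i < j → c (x i) (x j) = v) ∧ ∀ i, c (x i) t = v := by
  classical
  have h0 := hκ.aleph0_le
  have hwf := tree_wf hT
  have hwo := fun t => EE_wo hT hwf c t
  by_cases hlong : ∃ t : T, κ.ord ≤ Ordinal.type ((· < ·) : EE hwf c t → EE hwf c t → Prop)
  · obtain ⟨t, ht⟩ := hlong
    have h2 : Ordinal.type ((· < ·) : κ.ord.ToType → κ.ord.ToType → Prop) ≤
        Ordinal.type ((· < ·) : EE hwf c t → EE hwf c t → Prop) := by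
      rw [Ordinal.type_toType]; exact ht
    obtain ⟨f⟩ := Ordinal.type_le_iff'.1 h2
    have hf : ∀ i j, i < j → (f i).1 < (f j).1 := fun i j hij => f.map_rel_iff.2 hij
    have hM := fun j => (M_iff hwf c t (f j).1).1 (f j).2
    obtain ⟨v, hv⟩ := Cardinal.infinite_pigeonhole_card (fun k => c (f k).1 t) κ
      (by rw [mk_ord_toType]) h0 (by rw [hκ.cof_ord]; exact hΛ)
    obtain ⟨φ, hφ, hφS⟩ := exists_strictMono_of_card _ hv
    refine ⟨fun k => (f (φ k)).1, t, v, fun a b hab => hf _ _ (hφ hab), fun k => (hM _).1, ?_, ?_⟩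
    · intro i j hij
      have h3 := (hM (φ j)).2 (f (φ i)).1 (hf _ _ (hφ hij)) (f (φ i)).2
      rw [h3]
      exact hφS i
    · intro i
      exact hφS i
  · exfalso
    apply hns
    push Not at hlong
    have hseg : ∀ t : T, Nonempty (PrincipalSeg ((· < ·) : EE hwf c t → EE hwf c t → Prop)
        ((· < ·) : κ.ord.ToType → κ.ord.ToType → Prop)) := by
      intro t
      apply Ordinal.type_lt_iff.1
      rw [Ordinal.type_toType]
      exact hlong t
    let f : ∀ t : T, PrincipalSeg ((· < ·) : EE hwf c t → EE hwf c t → Prop)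
        ((· < ·) : κ.ord.ToType → κ.ord.ToType → Prop) := fun t => (hseg t).some
    have hfm : ∀ t, StrictMono (fun s => f t s) := by
      intro t a b hab
      exact (f t).map_rel_iff.2 hab
    have hmem : ∀ t : T, code hwf c t (fun s => f t s) ∈
        {F : κ.ord.ToType → Option Λ | ∃ b, ∀ k, b ≤ k → F k = none} := by
      intro t
      refine ⟨(f t).top, fun k hk => code_none _ _ _ _ _ ?_⟩
      rintro ⟨s, hs⟩
      have := (f t).lt_top s
      rw [show f t s = k from hs] at this
      exact absurd this (not_lt.2 hk)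
    have hcard := mk_codes h0 hΛ
    have : Nonempty ({F : κ.ord.ToType → Option Λ | ∃ b, ∀ k, b ≤ k → F k = none} ↪
        ((2 : Cardinal.{u}) ^< κ).out) := by
      rw [← Cardinal.le_def, mk_out]
      exact hcard
    obtain ⟨e⟩ := this
    refine ⟨fun t => e ⟨code hwf c t (fun s => f t s), hmem t⟩, ?_⟩
    intro s t hst heq
    have h5 := congrArg Subtype.val (e.injective heq)
    exact code_ne hT hwf c hst _ _ (hfm s) (hfm t) h5

end Pool.Agent.TH769.TreeER2
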